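import Pool.Agent.helper79.NB.Defs

set_option autoImplicit false

namespace Pool.Agent.helper79.NB

open Finset

variable {n : ℕ}

theorem dm_tauC (f : Cell n) : dm (tauC f) = dm f := by
  unfold dm tauC
  congr 1
  ext v
  simp only [mem_filter, mem_univ, true_and, Option.map_eq_none_iff]

theorem dm_free (f : Cell n) (u : Fin n) (h : f u ≠ none) : dm (free f u) = dm f + 1 := by
  unfold dm free
  have hset : (univ.filter (fun v => Function.update f u none v = none))
      = insert u (univ.filter (fun v => f v = none)) := by
    ext v
    simp only [mem_filter, mem_univ, true_and, mem_insert]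
    by_cases hv : v = u
    · subst hv
      simp
    · rw [Function.update_of_ne hv]
      simp [hv]
  rw [hset, card_insert_of_notMem]
  simpa using h

theorem ext_tauC (f : Cell n) (x : St n) : Ext (tauC f) x ↔ Ext f (tauS x) := by
  unfold Ext tauC tauS
  constructor
  · intro h v b hb
    have h1 := h v (!b) (by rw [hb]; rfl)
    rw [h1]
    simp
  · intro h v b hb
    have hb' : f v = some (!b) := by
      cases hfv : f v with
      | none => rw [hfv] at hb; simp at hb
      | some c =>
        rw [hfv] at hb
        simp only [Option.map_some, Option.some.injEq] at hb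
        rw [← hb]
        simp
    have h1 := h v (!b) hb'
    have h2 : (!(!(x v))) = (!(!b)) := by rw [h1]
    simpa using h2

theorem ext_free (f : Cell n) (u : Fin n) (x : St n) (h : Ext f x) : Ext (free f u) x := by
  intro v b hb
  unfold free at hb
  by_cases hv : v = u
  · subst hv
    simp at hb
  · rw [Function.update_of_ne hv] at hb
    exact h v b hb

/-- two vertices of a cell differ in at most `dm f` coordinates -/
theorem dist_le_dm (f : Cell n) (x y : St n) (hx : Ext f x) (hy : Ext f y) : dist x y ≤ dm f := by
  unfold dist dm
  apply card_le_card
  intro v hv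
  simp only [mem_filter, mem_univ, true_and] at hv ⊢
  by_contra hne
  obtain ⟨b, hb⟩ := Option.ne_none_iff_exists'.mp hne
  exact hv ((hx v b hb).trans (hy v b hb).symm)

/-- every cell has a vertex -/
theorem exists_ext (f : Cell n) : ∃ x, Ext f x := by
  refine ⟨fun v => (f v).getD false, ?_⟩
  intro v b hb
  simp only [hb, Option.getD_some]

/-- Lipschitz bound along a path of flips (induction on `dist x y`) -/
theorem lip_dist (s : St n → ℝ) (M : ℝ) (hM : 0 ≤ M) (hlip : ∀ x u, |s (flip u x) - s x| ≤ M)
    (x y : St n) : |s x - s y| ≤ M * dist x y := by
  have key : ∀ d : ℕ, ∀ x y : St n, dist x y = d → |s x - s y| ≤ M * d := by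
    intro d
    induction d with
    | zero =>
      intro x y hd
      have hxy : x = y := by
        funext v
        by_contra hne
        unfold dist at hd
        rw [card_eq_zero] at hd
        have hmem : v ∈ univ.filter (fun v => x v ≠ y v) := by
          simp only [mem_filter, mem_univ, true_and]
          exact hne
        rw [hd] at hmem
        simp at hmem
      subst hxy
      simp
    | succ d ih =>
      intro x y hd
      have hne : (univ.filter (fun v => x v ≠ y v)).Nonempty := by
        rw [← card_pos]
        unfold dist at hd
        omega
      obtain ⟨u, hu⟩ := hne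
      simp only [mem_filter, mem_univ, true_and] at hu
      have hd' : dist (flip u x) y = d := by
        unfold dist at hd ⊢
        have hset : univ.filter (fun v => flip u x v ≠ y v)
            = (univ.filter (fun v => x v ≠ y v)).erase u := by
          ext v
          simp only [mem_filter, mem_univ, true_and, mem_erase]
          unfold flip
          by_cases hv : v = u
          · subst hv
            simp only [Function.update_self, ne_eq, not_true_eq_false, false_and, iff_false,
              not_not]
            cases hxv : x v <;> cases hyv : y v <;> simp_all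
          · rw [Function.update_of_ne hv]
            simp [hv]
        rw [hset, card_erase_of_mem, hd]
        · rfl
        · simp only [mem_filter, mem_univ, true_and]
          exact hu
      have h1 := ih (flip u x) y hd'
      have h2 := hlip x u
      have h3 : |s x - s y| ≤ |s x - s (flip u x)| + |s (flip u x) - s y| :=
        abs_sub_le _ _ _
      rw [abs_sub_comm (s x) (s (flip u x))] at h3
      push_cast
      nlinarith
  exact key (dist x y) x y rfl

theorem Ind.mono {S T : Finset (St n)} {j : ℕ} (h : Ind S j) (hST : S ⊆ T) : Ind T j := by
  obtain ⟨c, h1, h2, h3⟩ := h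
  exact ⟨c, fun i hi f hf => ⟨(h1 i hi f hf).1, fun x hx => hST ((h1 i hi f hf).2 x hx)⟩, h2, h3⟩

/-- `∑ f, c 0 f = 1` gives a cell with `c 0 f ≠ 0`, it has a vertex, which lies in `S` -/
theorem Ind.nonempty {S : Finset (St n)} {j : ℕ} (h : Ind S j) : S.Nonempty := by
  obtain ⟨c, h1, h2, h3⟩ := h
  have hex : ∃ f ∈ (univ : Finset (Cell n)), c 0 f ≠ 0 := by
    apply exists_ne_zero_of_sum_ne_zero
    rw [h2]
    exact one_ne_zero
  obtain ⟨f, _, hf⟩ := hex
  obtain ⟨x, hx⟩ := exists_ext f
  exact ⟨x, (h1 0 (Nat.zero_le j) f hf).2 x hx⟩

end Pool.Agent.helper79.NB
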