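import Pool.Agent.helper79.NB.Defs

set_option autoImplicit false

namespace Pool.Agent.helper79.NB

open Finset

variable {n : ℕ}

/-! Sketch: everything mod 2. `bd (bd c) f = ∑_u ∑_v [f u, f v not free, u ≠ v] c (free (free f u) v)`
is symmetric in `u, v`, so pairs cancel (`Finset.sum_involution`, or `∑ = ∑_{u<v} + ∑_{v<u}`).
`∑ f, bd c f`: pair `(f, u)` with `f u = some b` and `(f[u := some !b], u)`: involution. -/

theorem tauC_tauC (f : Cell n) : tauC (tauC f) = f := by
  funext v
  unfold tauC
  cases h : f v <;> simp

theorem tauS_tauS (x : St n) : tauS (tauS x) = x := by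
  funext v
  simp [tauS]

theorem tau_tau (c : Ch n) : tau (tau c) = c := by
  funext f
  simp [tau, tauC_tauC]

theorem tau_add (c d : Ch n) : tau (c + d) = tau c + tau d := by
  funext f
  rfl

theorem bd_add (c d : Ch n) : bd (c + d) = bd c + bd d := by
  funext f
  simp only [bd, Pi.add_apply]
  rw [← Finset.sum_add_distrib]
  refine Finset.sum_congr rfl fun u _ => ?_
  by_cases h : f u = none
  · simp [h]
  · simp [h]

theorem AlgA_zz (a : ZMod 2) : a + a = 0 := by
  revert a
  decide

theorem AlgA_free_comm (f : Cell n) (u v : Fin n) : free (free f u) v = free (free f v) u := by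
  unfold free
  by_cases h : u = v
  · subst h
    rfl
  · exact Function.update_comm h _ _ _

theorem AlgA_free_none (f : Cell n) (u v : Fin n) : free f u v = none ↔ v = u ∨ f v = none := by
  unfold free
  by_cases h : v = u
  · subst h
    simp
  · simp [Function.update_of_ne h, h]

theorem bd_bd (c : Ch n) : bd (bd c) = 0 := by
  funext f
  have key : ∀ p : Fin n × Fin n,
      (if f p.1 = none then (0 : ZMod 2) else
        if free f p.1 p.2 = none then 0 else c (free (free f p.1) p.2)) =
      (if f p.2 = none then (0 : ZMod 2) else
        if free f p.2 p.1 = none then 0 else c (free (free f p.2) p.1)) := by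
    intro p
    rw [AlgA_free_comm f p.2 p.1]
    by_cases h1 : f p.1 = none
    · have : free f p.2 p.1 = none := (AlgA_free_none f p.2 p.1).2 (Or.inr h1)
      simp [h1, this]
    · by_cases h2 : f p.2 = none
      · have : free f p.1 p.2 = none := (AlgA_free_none f p.1 p.2).2 (Or.inr h2)
        simp [h2, this]
      · by_cases h3 : p.1 = p.2
        · have e1 : free f p.1 p.2 = none := (AlgA_free_none f p.1 p.2).2 (Or.inl h3.symm)
          have e2 : free f p.2 p.1 = none := (AlgA_free_none f p.2 p.1).2 (Or.inl h3)
          simp [e1, e2]
        · have e1 : ¬ free f p.1 p.2 = none := fun h =>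
            (AlgA_free_none f p.1 p.2).1 h |>.elim (fun e => h3 e.symm) h2
          have e2 : ¬ free f p.2 p.1 = none := fun h =>
            (AlgA_free_none f p.2 p.1).1 h |>.elim h3 h1
          rw [if_neg h1, if_neg h2, if_neg e1, if_neg e2]
  have hsum : bd (bd c) f = ∑ p ∈ (univ : Finset (Fin n × Fin n)),
      (if f p.1 = none then (0 : ZMod 2) else
        if free f p.1 p.2 = none then 0 else c (free (free f p.1) p.2)) := by
    rw [← Finset.univ_product_univ, Finset.sum_product]
    unfold bd
    refine Finset.sum_congr rfl fun u _ => ?_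
    by_cases h : f u = none
    · simp [h]
    · simp only [h, if_false]
  rw [hsum]
  refine Finset.sum_involution (fun p _ => (p.2, p.1)) ?_ ?_ ?_ ?_
  · intro p _
    rw [← key p]
    exact AlgA_zz _
  · intro p _ hp he
    apply hp
    have h3 : p.1 = p.2 := (congrArg Prod.fst he).symm
    have e1 : free f p.1 p.2 = none := (AlgA_free_none f p.1 p.2).2 (Or.inl h3.symm)
    rw [if_pos e1]
    simp
  · intro p _
    exact Finset.mem_univ _
  · intro p _
    rfl

theorem AlgA_tauC_none (f : Cell n) (u : Fin n) : tauC f u = none ↔ f u = none := by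
  simp [tauC]

theorem AlgA_tauC_free (f : Cell n) (u : Fin n) : tauC (free f u) = free (tauC f) u := by
  funext v
  by_cases h : v = u
  · subst h
    simp [tauC, free]
  · simp [tauC, free, Function.update_of_ne h]

theorem bd_tau (c : Ch n) : bd (tau c) = tau (bd c) := by
  funext f
  simp only [bd, tau]
  refine Finset.sum_congr rfl fun u _ => ?_
  rw [AlgA_tauC_free]
  by_cases h : f u = none
  · rw [if_pos h, if_pos ((AlgA_tauC_none f u).2 h)]
  · rw [if_neg h, if_neg (fun e => h ((AlgA_tauC_none f u).1 e))]

theorem sum_bd (c : Ch n) : ∑ f, bd c f = 0 := by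
  unfold bd
  rw [Finset.sum_comm]
  refine Finset.sum_eq_zero fun u _ => ?_
  refine Finset.sum_involution (fun f _ => Function.update f u ((f u).map (fun b => !b))) ?_ ?_ ?_ ?_
  · intro f _
    by_cases h : f u = none
    · simp [h]
    · have e1 : ¬ (Function.update f u ((f u).map (fun b => !b))) u = none := by
        simp [h]
      have e2 : free (Function.update f u ((f u).map (fun b => !b))) u = free f u := by
        simp [free]
      rw [if_neg h, if_neg e1, e2]
      exact AlgA_zz _
  · intro f _ hf he
    by_cases h : f u = none
    · rw [if_pos h] at hf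
      exact hf rfl
    · obtain ⟨b, hb⟩ := Option.ne_none_iff_exists'.1 h
      have := congrFun he u
      rw [Function.update_self, hb] at this
      simp at this
  · intro f _
    exact Finset.mem_univ _
  · intro f _
    funext v
    by_cases hv : v = u
    · subst hv
      cases h : f v <;> simp [h]
    · simp [Function.update_of_ne hv]

theorem sum_tau (c : Ch n) : ∑ f, tau c f = ∑ f, c f := by
  have hinv : Function.Involutive (tauC : Cell n → Cell n) := tauC_tauC
  exact Equiv.sum_comp (Function.Involutive.toPerm _ hinv) c

theorem add_self_ch (c : Ch n) : c + c = 0 := by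
  funext f
  exact AlgA_zz _

end Pool.Agent.helper79.NB
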