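import Pool.Agent.helper79.NB.Quant

set_option autoImplicit false

namespace Pool.Agent.helper79.NB

/-!
Proof sketch of `asym`.  `m k = ⌈(k:ℝ)^(2/3)⌉₊ + 1` (so `m ≥ 1`), `f k = 2 k + 3 m k`, `quant` with
`a = b = m`, `d = f k`, `r = 1`, `w = 1`: `∑_A 1 - ∑_{Aᶜ} 1 = 2 |A| - |V|`, and
`| 2 |A| - |V| | ≤ 2 f(k) n / m^2 + (m + 1)`.  If `V` is empty everything is trivial; otherwise
`n ≥ f k + 1 ≥ 2 k`, so `m + 1 ≤ (m + 1) / (f k) * n`.  Put
`η k = 2 f(k) / m^2 + (m + 1) / f(k)`; both terms tend to `0`.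
-/

/-- the block length -/
noncomputable def asym_m (k : ℕ) : ℕ := ⌈((k : ℝ) ^ ((2 : ℝ) / 3))⌉₊ + 1

theorem asym_m_one (k : ℕ) : 1 ≤ asym_m k := by
  unfold asym_m
  omega

theorem asym_m_lb (k : ℕ) : (k : ℝ) ^ ((2 : ℝ) / 3) ≤ (asym_m k : ℝ) := by
  unfold asym_m
  push_cast
  have h := Nat.le_ceil ((k : ℝ) ^ ((2 : ℝ) / 3))
  linarith

theorem asym_m_ub (k : ℕ) : (asym_m k : ℝ) ≤ (k : ℝ) ^ ((2 : ℝ) / 3) + 2 := by
  unfold asym_m
  push_cast
  have h0 : (0 : ℝ) ≤ (k : ℝ) ^ ((2 : ℝ) / 3) := Real.rpow_nonneg (Nat.cast_nonneg k) _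
  have h := Nat.ceil_lt_add_one h0
  linarith

theorem asym_rpow_zero {p : ℝ} (hp : 0 < p) :
    Filter.Tendsto (fun k : ℕ => (k : ℝ) ^ (-p)) Filter.atTop (nhds 0) :=
  (tendsto_rpow_neg_atTop hp).comp tendsto_natCast_atTop_atTop

/-- the whole bound for one set -/
theorem asym_bound {k : ℕ} {V : Type} [Fintype V] [DecidableEq V] (G : SimpleGraph V)
    [DecidableRel G.Adj] (hdeg : ∀ v : V, 2 * k + 3 * asym_m k ≤ G.degree v) (A : Finset V)
    (hA : |∑ v ∈ A, (1 : ℝ) - ∑ v ∈ Aᶜ, (1 : ℝ)| ≤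
      2 * ((1 : ℕ) : ℝ) * ((2 * k + 3 * asym_m k : ℕ) : ℝ) * (Fintype.card V : ℝ) /
        ((asym_m k : ℝ) * (asym_m k : ℝ)) + ((asym_m k : ℝ) - 1 + 2 * ((1 : ℕ) : ℝ))) :
    |2 * (A.card : ℝ) - (Fintype.card V : ℝ)| ≤
      (2 * ((2 * k + 3 * asym_m k : ℕ) : ℝ) / ((asym_m k : ℝ) * (asym_m k : ℝ)) +
        ((asym_m k : ℝ) + 1) / ((2 * k + 3 * asym_m k : ℕ) : ℝ)) * (Fintype.card V : ℝ) := by
  classical
  rcases isEmpty_or_nonempty V with hV | hV
  · have h1 : Fintype.card V = 0 := Fintype.card_eq_zero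
    have h2 : A.card = 0 := by
      have := Finset.card_le_univ A
      omega
    rw [h1, h2]
    simp
  · obtain ⟨v⟩ := hV
    have hn : 2 * k + 3 * asym_m k ≤ Fintype.card V := by
      have h1 := hdeg v
      have h2 := G.degree_lt_card_verts v
      omega
    have hm : 1 ≤ asym_m k := asym_m_one k
    have hf0 : (0 : ℝ) < ((2 * k + 3 * asym_m k : ℕ) : ℝ) := by
      have : 0 < 2 * k + 3 * asym_m k := by omega
      exact_mod_cast this
    have hm0 : (0 : ℝ) < (asym_m k : ℝ) := by exact_mod_cast hm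
    have hn' : ((2 * k + 3 * asym_m k : ℕ) : ℝ) ≤ (Fintype.card V : ℝ) := by exact_mod_cast hn
    have hsum : ∑ v ∈ A, (1 : ℝ) - ∑ v ∈ Aᶜ, (1 : ℝ) =
        2 * (A.card : ℝ) - (Fintype.card V : ℝ) := by
      rw [Finset.sum_const, Finset.sum_const, nsmul_eq_mul, nsmul_eq_mul, mul_one, mul_one,
        Finset.card_compl, Nat.cast_sub (Finset.card_le_univ A)]
      ring
    rw [hsum] at hA
    refine hA.trans ?_
    have h3 : (asym_m k : ℝ) + 1 ≤ ((asym_m k : ℝ) + 1) / ((2 * k + 3 * asym_m k : ℕ) : ℝ) *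
        (Fintype.card V : ℝ) := by
      rw [div_mul_eq_mul_div, le_div_iff₀ hf0]
      exact mul_le_mul_of_nonneg_left hn' (by linarith)
    have h4 : 2 * ((1 : ℕ) : ℝ) * ((2 * k + 3 * asym_m k : ℕ) : ℝ) * (Fintype.card V : ℝ) /
        ((asym_m k : ℝ) * (asym_m k : ℝ)) =
        2 * ((2 * k + 3 * asym_m k : ℕ) : ℝ) / ((asym_m k : ℝ) * (asym_m k : ℝ)) *
          (Fintype.card V : ℝ) := by
      rw [Nat.cast_one, mul_one, div_mul_eq_mul_div]
    rw [h4, add_mul]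
    have h5 : (asym_m k : ℝ) - 1 + 2 * ((1 : ℕ) : ℝ) = (asym_m k : ℝ) + 1 := by
      rw [Nat.cast_one]
      ring
    rw [h5]
    linarith

/-- the asymptotic form -/
theorem asym :
    ∃ (f : ℕ → ℕ) (η : ℕ → ℝ),
      Filter.Tendsto (fun k : ℕ => ((f k : ℝ) - 2 * (k : ℝ)) / (k : ℝ)) Filter.atTop (nhds 0) ∧
      Filter.Tendsto η Filter.atTop (nhds 0) ∧
      ∀ (k : ℕ) (V : Type) [Fintype V] [DecidableEq V] (G : SimpleGraph V) [DecidableRel G.Adj],
        (∀ v : V, f k ≤ G.degree v) →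
        (∃ A : Finset V,
            |2 * (A.card : ℝ) - (Fintype.card V : ℝ)| ≤ η k * (Fintype.card V : ℝ) ∧
            ∀ v : V, k ≤ ((G.neighborFinset v).filter (fun w => (w ∈ A ↔ v ∈ A))).card) ∧
        (∃ A : Finset V,
            |2 * (A.card : ℝ) - (Fintype.card V : ℝ)| ≤ η k * (Fintype.card V : ℝ) ∧
            ∀ v : V, k ≤ ((G.neighborFinset v).filter (fun w => (w ∈ A ↔ v ∉ A))).card) := by
  refine ⟨fun k => 2 * k + 3 * asym_m k,
    fun k => 2 * ((2 * k + 3 * asym_m k : ℕ) : ℝ) / ((asym_m k : ℝ) * (asym_m k : ℝ)) +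
        ((asym_m k : ℝ) + 1) / ((2 * k + 3 * asym_m k : ℕ) : ℝ), ?_, ?_, ?_⟩
  · -- the degree
    have hU : Filter.Tendsto (fun k : ℕ => 3 * (k : ℝ) ^ (-((1 : ℝ) / 3)) + 6 * (k : ℝ) ^ (-(1 : ℝ)))
        Filter.atTop (nhds 0) := by
      have h := ((asym_rpow_zero (p := 1 / 3) (by norm_num)).const_mul 3).add
        ((asym_rpow_zero (p := 1) (by norm_num)).const_mul 6)
      simpa using h
    refine squeeze_zero' (Filter.Eventually.of_forall fun k => ?_) ?_ hU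
    · push_cast
      have e : (2 * (k : ℝ) + 3 * (asym_m k : ℝ) - 2 * (k : ℝ)) / (k : ℝ) = 3 * (asym_m k : ℝ) / (k : ℝ) := by
        ring
      rw [e]
      positivity
    · filter_upwards [Filter.eventually_ge_atTop 1] with k hk
      have hk0 : (0 : ℝ) < (k : ℝ) := by exact_mod_cast hk
      have h1 := asym_m_ub k
      have h2 : (k : ℝ) ^ ((2 : ℝ) / 3) / (k : ℝ) = (k : ℝ) ^ (-((1 : ℝ) / 3)) := by
        rw [← Real.rpow_sub_one hk0.ne']
        norm_num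
      have h3 : (k : ℝ) ^ (-(1 : ℝ)) = 1 / (k : ℝ) := by
        rw [Real.rpow_neg_one, one_div]
      rw [← h2, h3]
      push_cast
      rw [div_le_iff₀ hk0]
      have e : (3 * ((k : ℝ) ^ ((2 : ℝ) / 3) / (k : ℝ)) + 6 * (1 / (k : ℝ))) * (k : ℝ) =
          3 * (k : ℝ) ^ ((2 : ℝ) / 3) + 6 := by
        field_simp
      rw [e]
      linarith
  · -- the balance
    have hU : Filter.Tendsto (fun k : ℕ => 4 * (k : ℝ) ^ (-((1 : ℝ) / 3)) +
        6 * (k : ℝ) ^ (-((2 : ℝ) / 3)) + ((k : ℝ) ^ (-((1 : ℝ) / 3)) + 3 * (k : ℝ) ^ (-(1 : ℝ))))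
        Filter.atTop (nhds 0) := by
      have h := (((asym_rpow_zero (p := 1 / 3) (by norm_num)).const_mul 4).add
        ((asym_rpow_zero (p := 2 / 3) (by norm_num)).const_mul 6)).add
        ((asym_rpow_zero (p := 1 / 3) (by norm_num)).add
        ((asym_rpow_zero (p := 1) (by norm_num)).const_mul 3))
      simpa using h
    refine squeeze_zero' (Filter.Eventually.of_forall fun k => ?_) ?_ hU
    · positivity
    · filter_upwards [Filter.eventually_ge_atTop 1] with k hk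
      have hk0 : (0 : ℝ) < (k : ℝ) := by exact_mod_cast hk
      have hub := asym_m_ub k
      have hlb := asym_m_lb k
      have hc0 : (0 : ℝ) < (k : ℝ) ^ ((2 : ℝ) / 3) := Real.rpow_pos_of_pos hk0 _
      set c : ℝ := (k : ℝ) ^ ((2 : ℝ) / 3) with hc
      set m : ℝ := (asym_m k : ℝ) with hm
      have hm0 : 0 < m := lt_of_lt_of_le hc0 hlb
      have h2 : c / (k : ℝ) = (k : ℝ) ^ (-((1 : ℝ) / 3)) := by
        rw [hc, ← Real.rpow_sub_one hk0.ne']
        norm_num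
      have h3 : (k : ℝ) ^ (-(1 : ℝ)) = 1 / (k : ℝ) := by
        rw [Real.rpow_neg_one, one_div]
      have h4 : (k : ℝ) ^ (-((2 : ℝ) / 3)) = 1 / c := by
        rw [Real.rpow_neg hk0.le, one_div]
      have h5 : (k : ℝ) ^ (-((1 : ℝ) / 3)) = (k : ℝ) / (c * c) := by
        rw [hc, ← Real.rpow_add hk0, eq_div_iff (Real.rpow_pos_of_pos hk0 _).ne', ← Real.rpow_add hk0]
        norm_num
      have hfc : ((2 * k + 3 * asym_m k : ℕ) : ℝ) = 2 * (k : ℝ) + 3 * m := by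
        push_cast
        rfl
      rw [hfc]
      have t1 : 2 * (2 * (k : ℝ) + 3 * m) / (m * m) ≤ 4 * ((k : ℝ) / (c * c)) + 6 * (1 / c) := by
        have e : 2 * (2 * (k : ℝ) + 3 * m) / (m * m) = 4 * ((k : ℝ) / (m * m)) + 6 * (1 / m) := by
          field_simp
          ring
        rw [e]
        have a1 : (k : ℝ) / (m * m) ≤ (k : ℝ) / (c * c) :=
          div_le_div_of_nonneg_left hk0.le (by positivity) (mul_le_mul hlb hlb hc0.le hm0.le)
        have a2 : 1 / m ≤ 1 / c := one_div_le_one_div_of_le hc0 hlb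
        linarith
      have t2 : (m + 1) / (2 * (k : ℝ) + 3 * m) ≤ c / (k : ℝ) + 3 * (1 / (k : ℝ)) := by
        have e : c / (k : ℝ) + 3 * (1 / (k : ℝ)) = (c + 3) / (k : ℝ) := by
          ring
        rw [e]
        have b1 : (m + 1) / (2 * (k : ℝ) + 3 * m) ≤ (m + 1) / (k : ℝ) :=
          div_le_div_of_nonneg_left (by linarith) hk0 (by linarith)
        have b2 : (m + 1) / (k : ℝ) ≤ (c + 3) / (k : ℝ) :=
          div_le_div_of_nonneg_right (by linarith) hk0.le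
        exact b1.trans b2
      rw [h4, h3]
      calc 2 * (2 * (k : ℝ) + 3 * m) / (m * m) + (m + 1) / (2 * (k : ℝ) + 3 * m)
          ≤ (4 * ((k : ℝ) / (c * c)) + 6 * (1 / c)) + (c / (k : ℝ) + 3 * (1 / (k : ℝ))) :=
            add_le_add t1 t2
        _ = 4 * (k : ℝ) ^ (-((1 : ℝ) / 3)) + 6 * (1 / c) +
            ((k : ℝ) ^ (-((1 : ℝ) / 3)) + 3 * (1 / (k : ℝ))) := by
            rw [h2]
            rw [← h5]
  · intro k V _ _ G _ hdeg
    have hm1 := asym_m_one k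
    obtain ⟨⟨A, hA, hA'⟩, ⟨B, hB, hB'⟩⟩ := quant k (asym_m k) (asym_m k) (2 * k + 3 * asym_m k) 1 V G
      (fun _ _ => 1) hm1 hm1 (by omega) hdeg (fun _ _ => by norm_num)
    exact ⟨⟨A, asym_bound G hdeg A (hA 0), hA'⟩, ⟨B, asym_bound G hdeg B (hB 0), hB'⟩⟩

end Pool.Agent.helper79.NB
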