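import Pool.Agent.helper79.NB.Push

set_option autoImplicit false

namespace Pool.Agent.helper79.NB

open Finset

/-!
Among the finsets `T ⊆ {x | G x = c}` which are symmetric (`Sym T`) and
satisfy `Ind ({c < G} ∪ T) j` take one of minimal cardinality (exists: `{G = c}` itself, since
`{c ≤ G} = {c < G} ∪ {G = c}`).  `T` is nonempty by `h2`.  Let `z ∈ T` and
`S = {c < G} ∪ (T \ {z, tauS z})`: symmetric, `z ∉ S`, and
`insert z (insert (tauS z) S) = {c < G} ∪ T`.  By minimality `¬ Ind S j`, so for each `u` the
hypothesis `hcone` of `push` fails: some `y` with `dist y z ≤ j`, `y u = z u`,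
`y ∈ {c < G} ∪ T` (so `c ≤ G y`) and `flip u y ∉ S` (so not `c < G (flip u y)`).
-/

theorem crit_tauS_tauS {n : ℕ} (x : St n) : tauS (tauS x) = x := by
  funext v
  simp [tauS]

/-- critical vertices: all vertices of a minimal set of vertices of value `c` -/
theorem crit {n : ℕ} (G : St n → ℝ) (hG : ∀ x, G (tauS x) = G x) (j : ℕ) (hj : j + 1 < n) (c : ℝ)
    (h1 : Ind (univ.filter (fun x => c ≤ G x)) j)
    (h2 : ¬ Ind (univ.filter (fun x => c < G x)) j) :
    ∃ T : Finset (St n), T.Nonempty ∧ (∀ z ∈ T, G z = c) ∧
      Ind (univ.filter (fun x => c < G x) ∪ T) j ∧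
      ∀ z ∈ T, ∀ u, ∃ y, dist y z ≤ j ∧ y u = z u ∧ c ≤ G y ∧ G (flip u y) ≤ c := by
  classical
  set P : Finset (Finset (St n)) := univ.filter (fun T : Finset (St n) =>
    Sym T ∧ (∀ z ∈ T, G z = c) ∧ Ind (univ.filter (fun x => c < G x) ∪ T) j) with hP
  have hne : P.Nonempty := by
    refine ⟨univ.filter (fun x => G x = c), ?_⟩
    rw [hP, mem_filter]
    refine ⟨mem_univ _, ?_, ?_, ?_⟩
    · intro x hx
      rw [mem_filter] at hx ⊢
      exact ⟨mem_univ _, by rw [hG]; exact hx.2⟩
    · intro z hz
      exact (mem_filter.mp hz).2
    · have he : (univ.filter (fun x => c < G x) ∪ univ.filter (fun x => G x = c))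
          = univ.filter (fun x : St n => c ≤ G x) := by
        ext x
        simp only [mem_union, mem_filter, mem_univ, true_and]
        constructor
        · rintro (h | h)
          · exact h.le
          · exact h.ge
        · intro h
          rcases h.lt_or_eq with h | h
          · exact Or.inl h
          · exact Or.inr h.symm
      rw [he]
      exact h1
  obtain ⟨T, hT, hmin⟩ := exists_min_image P (fun T => T.card) hne
  rw [hP, mem_filter] at hT
  obtain ⟨-, hsym, hval, hind⟩ := hT
  refine ⟨T, ?_, hval, hind, ?_⟩
  · rw [nonempty_iff_ne_empty]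
    intro h0
    rw [h0, union_empty] at hind
    exact h2 hind
  · intro z hz u
    by_contra hcon
    push Not at hcon
    have htz : tauS z ∈ T := hsym z hz
    set T' : Finset (St n) := (T.erase z).erase (tauS z) with hT'
    set S : Finset (St n) := univ.filter (fun x => c < G x) ∪ T' with hS
    have hT'T : T' ⊆ T := (erase_subset _ _).trans (erase_subset _ _)
    have hsymT' : Sym T' := by
      intro x hx
      rw [hT', mem_erase, mem_erase] at hx ⊢
      obtain ⟨hx1, hx2, hx3⟩ := hx
      refine ⟨?_, ?_, hsym x hx3⟩
      · intro h
        apply hx2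
        rw [← crit_tauS_tauS x, h, crit_tauS_tauS]
      · intro h
        apply hx1
        rw [← h, crit_tauS_tauS]
    have hsymS : Sym S := by
      intro x hx
      rw [hS, mem_union] at hx ⊢
      rcases hx with hx | hx
      · left
        rw [mem_filter] at hx ⊢
        exact ⟨mem_univ _, by rw [hG]; exact hx.2⟩
      · right
        exact hsymT' x hx
    have hzS : z ∉ S := by
      rw [hS, mem_union, not_or]
      constructor
      · rw [mem_filter]
        rintro ⟨-, h⟩
        rw [hval z hz] at h
        exact lt_irrefl _ h
      · rw [hT', mem_erase, mem_erase]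
        rintro ⟨-, h, -⟩
        exact h rfl
    have hins : insert z (insert (tauS z) S) = univ.filter (fun x => c < G x) ∪ T := by
      ext x
      rw [mem_insert, mem_insert, hS, mem_union, mem_union, hT', mem_erase, mem_erase]
      constructor
      · rintro (h | h | h | h)
        · right; rw [h]; exact hz
        · right; rw [h]; exact htz
        · left; exact h
        · right; exact h.2.2
      · rintro (h | h)
        · right; right; left; exact h
        · by_cases hx1 : x = z
          · left; exact hx1
          · by_cases hx2 : x = tauS z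
            · right; left; exact hx2
            · right; right; right
              exact ⟨hx2, hx1, h⟩
    have hS' : Ind S j := by
      apply push S hsymS z hzS j hj u
      · rw [hins]; exact hind
      · intro y hy1 hy2 hy3
        by_contra hy4
        rw [hins, mem_union, mem_filter] at hy3
        have hcy : c ≤ G y := by
          rcases hy3 with h | h
          · exact h.2.le
          · exact (hval y h).ge
        have h5 := hcon y hy1 hy2 hcy
        apply hy4
        rw [hS, mem_union, mem_filter]
        left
        exact ⟨mem_univ _, h5⟩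
    have hmem : T' ∈ P := by
      rw [hP, mem_filter]
      exact ⟨mem_univ _, hsymT', fun x hx => hval x (hT'T hx), hS'⟩
    have hle := hmin T' hmem
    have hlt : T'.card < T.card := by
      apply card_lt_card
      refine ⟨hT'T, ?_⟩
      intro h
      have := h hz
      rw [hT', mem_erase, mem_erase] at this
      exact this.2.1 rfl
    exact absurd hle (not_le.mpr hlt)

end Pool.Agent.helper79.NB
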