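import Mathlib

set_option autoImplicit false

/-!
# Near-bisections: the cube as a cubical complex over F_2

`St n` = vertices of the cube, `Cell n` = cells (`none` = free coordinate), `Ch n` = chains mod 2.
`Ind S j`: the full subcomplex on the vertex set `S` has (homological) index at least `j`: there are
chains `c_0, ..., c_j` with `c_0` odd and `bd c_(i+1) = c_i + tau c_i`.
-/

namespace Pool.Agent.helper79.NB

open Finset

/-- vertices of the cube -/
abbrev St (n : ℕ) := Fin n → Bool

/-- cells of the cube; `none` is a free coordinate -/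
abbrev Cell (n : ℕ) := Fin n → Option Bool

/-- chains mod 2 -/
abbrev Ch (n : ℕ) := Cell n → ZMod 2

/-- `x` is a vertex of the cell `f` -/
def Ext {n : ℕ} (f : Cell n) (x : St n) : Prop := ∀ v b, f v = some b → x v = b

/-- dimension of a cell -/
def dm {n : ℕ} (f : Cell n) : ℕ := (univ.filter (fun v => f v = none)).card

def tauC {n : ℕ} (f : Cell n) : Cell n := fun v => (f v).map (fun b => !b)

def tauS {n : ℕ} (x : St n) : St n := fun v => !(x v)

def tau {n : ℕ} (c : Ch n) : Ch n := fun f => c (tauC f)

/-- free the coordinate `u` -/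
def free {n : ℕ} (f : Cell n) (u : Fin n) : Cell n := Function.update f u none

/-- boundary mod 2: the cofaces of `f` are the cells `free f u` -/
def bd {n : ℕ} (c : Ch n) : Ch n := fun f => ∑ u, if f u = none then 0 else c (free f u)

def flip {n : ℕ} (u : Fin n) (x : St n) : St n := Function.update x u (!(x u))

/-- number of coordinates in which two vertices differ -/
def dist {n : ℕ} (x y : St n) : ℕ := (univ.filter (fun v => x v ≠ y v)).card

/-- `c` is an `i`-chain of the full subcomplex on `S` -/
def Supp {n : ℕ} (S : Finset (St n)) (i : ℕ) (c : Ch n) : Prop :=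
  ∀ f, c f ≠ 0 → dm f = i ∧ ∀ x, Ext f x → x ∈ S

def Ind {n : ℕ} (S : Finset (St n)) (j : ℕ) : Prop :=
  ∃ c : ℕ → Ch n, (∀ i ≤ j, Supp S i (c i)) ∧ ∑ f, c 0 f = 1 ∧
    ∀ i < j, bd (c (i + 1)) = c i + tau (c i)

def Sym {n : ℕ} (S : Finset (St n)) : Prop := ∀ x ∈ S, tauS x ∈ S

end Pool.Agent.helper79.NB
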