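import Pool.Agent.helper79.NB.Alg

set_option autoImplicit false

namespace Pool.Agent.helper79.NB

open Finset

/-!
Proof sketch of `ind_univ`.  Explicit chains: `c i f = 1` iff `dm f = i` and every non-free
coordinate `v` of `f` satisfies `f v = some (decide (the number of free coordinates w > v is odd))`
(with `v : Fin n`, order of `Fin n`); otherwise `0`.
* `c 0`: only the constant cell `fun v => some false`, so the sum is `1`.
* `bd (c (i+1)) f = c i f + tau (c i) f`.  If `dm f ≠ i` both sides are `0` (dm_free, dm_tauC).
  Let `dm f = i`.  Let `p v` be the parity (Bool) of the number of free `w > v` in `f`.  For a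
  non-free `v` of `f`, freeing `v` changes the parity for exactly the coordinates `w < v`; so
  `c (i+1) (free f v) = 1` iff for every non-free `w ≠ v`: `f w = some (p w xor (decide (w < v)))`.
  For `t : ℕ`, `t ≤ n` let `T t : ZMod 2` be `1` iff for every non-free `w`:
  `f w = some (p w xor decide ((w:ℕ) < t))`, else `0`.  Then for a free `v`: `T v + T (v+1) = 0`
  (equal, because `v` itself is free), and for a non-free `v`: `T v + T (v+1) = c (i+1) (free f v)`
  (exactly one of `T v`, `T (v+1)` is `1` when the condition at all `w ≠ v` holds, both `0`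
  otherwise).  Hence `bd (c (i+1)) f = ∑_{t<n} (T t + T (t+1)) = T 0 + T n` (telescope mod 2), and
  `T 0 = c i f`, `T n = c i (tauC f)` (all coordinates flipped; free set unchanged).
-/

/-- parity of the number of free coordinates above `v` -/
def par {n : ℕ} (f : Cell n) (v : Fin n) : Bool :=
  decide ((univ.filter (fun w => v < w ∧ f w = none)).card % 2 = 1)

/-- the pattern: alternating values, switched below the threshold `t` -/
def TT {n : ℕ} (f : Cell n) (t : ℕ) : Prop :=
  ∀ w b, f w = some b → b = xor (par f w) (decide ((w : ℕ) < t))

open Classical in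
/-- indicator of the pattern -/
noncomputable def II {n : ℕ} (f : Cell n) (t : ℕ) : ZMod 2 := if TT f t then 1 else 0

open Classical in
/-- the explicit chains -/
noncomputable def ch {n : ℕ} (i : ℕ) : Ch n := fun f => if dm f = i then II f 0 else 0

theorem par_tauC {n : ℕ} (f : Cell n) (v : Fin n) : par (tauC f) v = par f v := by
  have : (univ.filter (fun w => v < w ∧ tauC f w = none)) =
      (univ.filter (fun w => v < w ∧ f w = none)) := by
    ext w
    simp [tauC]
  rw [par, par, this]

theorem par_free {n : ℕ} (f : Cell n) (v w : Fin n) (hv : f v ≠ none) (hw : w ≠ v) :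
    par (free f v) w = xor (par f w) (decide (w < v)) := by
  by_cases h : w < v
  · have e : (univ.filter (fun x => w < x ∧ free f v x = none)) =
        insert v (univ.filter (fun x => w < x ∧ f x = none)) := by
      ext x
      by_cases hx : x = v
      · subst hx
        simp [free, h]
      · simp [free, hx]
    have hn : v ∉ (univ.filter (fun x => w < x ∧ f x = none)) := by
      simp [hv]
    have hc : (univ.filter (fun x => w < x ∧ free f v x = none)).card =
        (univ.filter (fun x => w < x ∧ f x = none)).card + 1 := by
      rw [e, card_insert_of_notMem hn]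
    unfold par
    rw [hc]
    generalize (univ.filter (fun x => w < x ∧ f x = none)).card = m
    rcases Nat.mod_two_eq_zero_or_one m with hm | hm
    · have : (m + 1) % 2 = 1 := by omega
      simp [h, hm, this]
    · have : (m + 1) % 2 = 0 := by omega
      simp [h, hm, this]
  · have e : (univ.filter (fun x => w < x ∧ free f v x = none)) =
        (univ.filter (fun x => w < x ∧ f x = none)) := by
      ext x
      by_cases hx : x = v
      · subst hx
        simp [h]
      · simp [free, Function.update_of_ne hx]
    unfold par
    rw [e]
    simp [h]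

theorem TT_tauC {n : ℕ} (f : Cell n) : TT (tauC f) 0 ↔ TT f n := by
  constructor
  · intro h w b hb
    have h1 := h w (!b) (by simp [tauC, hb])
    rw [par_tauC] at h1
    rw [decide_eq_false (Nat.not_lt_zero _), Bool.xor_false] at h1
    rw [decide_eq_true w.2, Bool.xor_true, ← h1, Bool.not_not]
  · intro h w b hb
    have hb' : f w = some (!b) := by
      simp only [tauC, Option.map_eq_some_iff] at hb
      obtain ⟨a, ha, rfl⟩ := hb
      simp [ha]
    have h1 := h w (!b) hb'
    rw [par_tauC]
    rw [decide_eq_true w.2, Bool.xor_true] at h1
    rw [decide_eq_false (Nat.not_lt_zero _), Bool.xor_false]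
    exact Bool.not_inj h1

theorem TT_free {n : ℕ} (f : Cell n) (v : Fin n) (hv : f v ≠ none) :
    TT (free f v) 0 ↔ ∀ w b, w ≠ v → f w = some b →
      b = xor (par f w) (decide ((w : ℕ) < (v : ℕ))) := by
  constructor
  · intro h w b hw hb
    have h1 := h w b (by simp [free, Function.update_of_ne hw, hb])
    rw [par_free f v w hv hw, decide_eq_false (Nat.not_lt_zero _), Bool.xor_false] at h1
    rw [h1]
    exact congrArg _ (decide_eq_decide.2 Fin.lt_def)
  · intro h w b hb
    by_cases hw : w = v
    · subst hw
      simp [free] at hb
    · have hb' : f w = some b := by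
        simpa [free, Function.update_of_ne hw] using hb
      have h1 := h w b hw hb'
      rw [par_free f v w hv hw, decide_eq_false (Nat.not_lt_zero _), Bool.xor_false, h1]
      exact congrArg _ (decide_eq_decide.2 Fin.lt_def.symm)

theorem II_step_free {n : ℕ} (f : Cell n) (v : Fin n) (hv : f v = none) :
    II f (v : ℕ) + II f ((v : ℕ) + 1) = 0 := by
  have e : TT f (v : ℕ) ↔ TT f ((v : ℕ) + 1) := by
    unfold TT
    refine forall_congr' fun w => forall_congr' fun b => ?_
    refine imp_congr_right fun hb => ?_
    have hw : w ≠ v := by
      rintro rfl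
      rw [hv] at hb
      cases hb
    have hw' : (w : ℕ) ≠ v := fun h => hw (Fin.ext h)
    have : ((w : ℕ) < v) ↔ ((w : ℕ) < v + 1) := by omega
    simp only [this]
  unfold II
  by_cases h : TT f (v : ℕ)
  · rw [if_pos h, if_pos (e.1 h)]
    decide
  · rw [if_neg h, if_neg (fun h' => h (e.2 h'))]
    decide

theorem II_step {n : ℕ} (f : Cell n) (v : Fin n) (hv : f v ≠ none) :
    II f (v : ℕ) + II f ((v : ℕ) + 1) = II (free f v) 0 := by
  obtain ⟨c, hc⟩ := Option.ne_none_iff_exists'.1 hv
  have e0 : TT f (v : ℕ) ↔ TT (free f v) 0 ∧ c = par f v := by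
    rw [TT_free f v hv]
    constructor
    · intro h
      refine ⟨fun w b _ hb => h w b hb, ?_⟩
      have := h v c hc
      simpa using this
    · rintro ⟨h, h'⟩ w b hb
      by_cases hw : w = v
      · subst hw
        rw [hc] at hb
        cases hb
        simpa using h'
      · exact h w b hw hb
  have e1 : TT f ((v : ℕ) + 1) ↔ TT (free f v) 0 ∧ c = !(par f v) := by
    rw [TT_free f v hv]
    constructor
    · intro h
      refine ⟨fun w b hw hb => ?_, ?_⟩
      · have h1 := h w b hb
        have hw' : (w : ℕ) ≠ v := fun h => hw (Fin.ext h)
        have : ((w : ℕ) < v) ↔ ((w : ℕ) < v + 1) := by omega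
        simpa only [this] using h1
      · have := h v c hc
        simpa using this
    · rintro ⟨h, h'⟩ w b hb
      by_cases hw : w = v
      · subst hw
        rw [hc] at hb
        cases hb
        simpa using h'
      · have h1 := h w b hw hb
        have hw' : (w : ℕ) ≠ v := fun h => hw (Fin.ext h)
        have : ((w : ℕ) < v) ↔ ((w : ℕ) < v + 1) := by omega
        simpa only [this] using h1
  unfold II
  by_cases h : TT (free f v) 0
  · rw [if_pos h]
    by_cases hp : c = par f v
    · rw [if_pos (e0.2 ⟨h, hp⟩), if_neg, add_zero]
      rw [e1]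
      rintro ⟨-, h'⟩
      rw [hp] at h'
      cases hq : par f v <;> simp [hq] at h'
    · have hp' : c = !(par f v) := by
        cases hq : par f v <;> cases c <;> simp_all
      rw [if_neg (fun h' => hp (e0.1 h').2), if_pos (e1.2 ⟨h, hp'⟩), zero_add]
  · rw [if_neg h, if_neg (fun h' => h (e0.1 h').1), if_neg (fun h' => h (e1.1 h').1), add_zero]

theorem telescope2 (F : ℕ → ZMod 2) (m : ℕ) :
    ∑ t ∈ range m, (F t + F (t + 1)) = F 0 + F m := by
  induction m with
  | zero =>
    rw [range_zero, sum_empty]
    exact (CharTwo.add_self_eq_zero (F 0)).symm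
  | succ m ih =>
    rw [sum_range_succ, ih]
    have := CharTwo.add_self_eq_zero (F m)
    linear_combination this

theorem bd_ch {n : ℕ} (i : ℕ) : bd (ch (i + 1) : Ch n) = ch i + tau (ch i) := by
  funext f
  rw [Pi.add_apply]
  unfold bd tau ch
  rw [dm_tauC]
  by_cases hd : dm f = i
  · rw [if_pos hd, if_pos hd]
    have h1 : ∀ u : Fin n, (if f u = none then 0 else
        (if dm (free f u) = i + 1 then II (free f u) 0 else 0)) =
        II f (u : ℕ) + II f ((u : ℕ) + 1) := by
      intro u
      by_cases hu : f u = none
      · rw [if_pos hu, II_step_free f u hu]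
      · rw [if_neg hu, if_pos (by rw [dm_free f u hu, hd]), II_step f u hu]
    rw [sum_congr rfl (fun u _ => h1 u),
      Fin.sum_univ_eq_sum_range (fun t => II f t + II f (t + 1)) n, telescope2]
    congr 1
    unfold II
    by_cases h : TT f n
    · rw [if_pos h, if_pos ((TT_tauC f).2 h)]
    · rw [if_neg h, if_neg (fun h' => h ((TT_tauC f).1 h'))]
  · rw [if_neg hd, if_neg hd, add_zero]
    refine sum_eq_zero fun u _ => ?_
    by_cases hu : f u = none
    · rw [if_pos hu]
    · rw [if_neg hu, if_neg]
      rw [dm_free f u hu]
      omega

theorem sum_ch_zero {n : ℕ} : ∑ f, (ch 0 : Ch n) f = 1 := by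
  rw [sum_eq_single (fun _ => some false : Cell n)]
  · have h0 : dm (fun _ => some false : Cell n) = 0 := by
      simp [dm]
    have h1 : TT (fun _ => some false : Cell n) 0 := by
      intro w b hb
      have : b = false := by simpa using hb.symm
      subst this
      simp [par]
    unfold ch II
    rw [if_pos h0, if_pos h1]
  · intro f _ hf
    unfold ch II
    by_cases h0 : dm f = 0
    · rw [if_pos h0, if_neg]
      intro h
      apply hf
      have hfree : ∀ w, f w ≠ none := by
        intro w hw
        have : w ∈ univ.filter (fun v => f v = none) := by simp [hw]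
        rw [card_eq_zero.1 h0] at this
        simp at this
      funext w
      obtain ⟨b, hb⟩ := Option.ne_none_iff_exists'.1 (hfree w)
      have h1 := h w b hb
      have h2 : par f w = false := by
        unfold par
        have : (univ.filter (fun x => w < x ∧ f x = none)) = ∅ := by
          apply filter_eq_empty_iff.2
          intro x _ hx
          exact hfree x hx.2
        rw [this]
        simp
      rw [h2] at h1
      simp at h1
      rw [hb, h1]
    · rw [if_neg h0]
  · intro h
    exact absurd (mem_univ _) h

/-- the whole cube has index at least `j` for every `j ≤ n` -/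
theorem ind_univ {n : ℕ} (j : ℕ) (hj : j ≤ n) : Ind (univ : Finset (St n)) j := by
  refine ⟨fun i => ch i, ?_, sum_ch_zero, ?_⟩
  · intro i _ f hf
    refine ⟨?_, fun x _ => mem_univ x⟩
    by_contra h
    apply hf
    show (if dm f = i then II f 0 else 0) = 0
    rw [if_neg h]
  · intro i _
    exact bd_ch i

end Pool.Agent.helper79.NB
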