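import Pool.Agent.helper79.NB.Minimax

set_option autoImplicit false

namespace Pool.Agent.helper79.NB

open Finset

/-!
Proof sketch of `graph_near` (uses the stub `minimax`).  `sg b = if b then 1 else -1 : ℝ`.
`E x = ± (1/2) ∑ u, ∑ v, if R u v then sg (x u) * sg (x v) else 0` (`+` for `ep = true`, `-` for
`ep = false`), `s i x = ∑ v, w i v * sg (x v)`, `p x = univ.sup' ⟨⟨0, _⟩, _⟩ (fun i => |s i x|)`
(`1 ≤ r`), `J = a`, `L = b`, `B = 2 d n`.
* `E, p` even, `s i` odd, `s i` changes by at most 2 under `flip`, hence `|p (flip u x) - p x| ≤ 2`.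
* `|E x| ≤ (1/2) * #{(u,v) | R u v} ≤ d n`, since by `hmin` each such pair has an endpoint of
  degree exactly `d`: `#{(u,v) | R u v} ≤ ∑_{u, deg u = d} deg u + ∑_{v, deg v = d} deg v ≤ 2 d n`.
* `E (flip u y) = E y ∓ 2 sg (y u) a_u y`, `a_u y = ∑ v, if R u v then sg (y v) else 0`
  (`R` symmetric and irreflexive).
* `minimax` gives `z, l`; for each `u` a `y` with `E (flip u y) - E y ≤ l (p (flip u y) - p y) ≤ 2 l`,
  so `ep = true`: `- l ≤ sg (y u) a_u y`; `y u = z u` and `|a_u y - a_u z| ≤ 2 dist y z ≤ 2 (a - 1)`,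
  so `sg (z u) a_u z ≥ - b - 2 (a - 1)`.  With `o` = number of `v` with `R u v`, `z v = z u`:
  `sg (z u) a_u z = o - (deg u - o)`, so `2 o ≥ d - b - 2 (a - 1) ≥ 2 k`.
  `ep = false`: same with the other sign, `o` = number of `v` with `R u v`, `z v ≠ z u`.
-/

/-- sign of a bit -/
noncomputable def sg (b : Bool) : ℝ := if b = true then 1 else -1

lemma sg_not (b : Bool) : sg (!b) = - sg b := by cases b <;> simp [sg]

lemma sg_abs (b : Bool) : |sg b| = 1 := by cases b <;> simp [sg]

lemma sg_sub_abs (b c : Bool) : |sg b - sg c| ≤ 2 * (if b ≠ c then 1 else 0) := by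
  cases b <;> cases c <;> simp [sg] <;> norm_num

/-- indicator of the relation -/
noncomputable def rr {n : ℕ} (R : Fin n → Fin n → Prop) [DecidableRel R] (u v : Fin n) : ℝ :=
  if R u v then 1 else 0

/-- sum of the signs of the neighbours -/
noncomputable def fld {n : ℕ} (R : Fin n → Fin n → Prop) [DecidableRel R] (x : St n)
    (u : Fin n) : ℝ := ∑ v, rr R u v * sg (x v)

/-- the quadratic form -/
noncomputable def qf {n : ℕ} (R : Fin n → Fin n → Prop) [DecidableRel R] (x : St n) : ℝ :=
  ∑ u, ∑ v, rr R u v * (sg (x u) * sg (x v))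

section
variable {n : ℕ} (R : Fin n → Fin n → Prop) [DecidableRel R]

lemma rr_nonneg (u v : Fin n) : 0 ≤ rr R u v := by unfold rr; split_ifs <;> norm_num

lemma rr_le_one (u v : Fin n) : rr R u v ≤ 1 := by unfold rr; split_ifs <;> norm_num

lemma rr_symm (hsymm : ∀ u v, R u v → R v u) (u v : Fin n) : rr R u v = rr R v u := by
  unfold rr
  by_cases h : R u v
  · rw [if_pos h, if_pos (hsymm u v h)]
  · rw [if_neg h, if_neg (fun h' => h (hsymm v u h'))]

lemma rr_self (hirr : ∀ u, ¬ R u u) (u : Fin n) : rr R u u = 0 := if_neg (hirr u)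

lemma sum_rr (u : Fin n) : ∑ v, rr R u v = ((univ.filter (fun v => R u v)).card : ℝ) := by
  unfold rr
  rw [Finset.sum_boole]

lemma qf_tau (x : St n) : qf R (tauS x) = qf R x := by
  unfold qf
  refine Finset.sum_congr rfl fun u _ => Finset.sum_congr rfl fun v _ => ?_
  show rr R u v * (sg (!(x u)) * sg (!(x v))) = _
  rw [sg_not, sg_not]
  ring

lemma qf_abs (x : St n) : |qf R x| ≤ ∑ u, ∑ v, rr R u v := by
  unfold qf
  refine (Finset.abs_sum_le_sum_abs _ _).trans (Finset.sum_le_sum fun u _ => ?_)
  refine (Finset.abs_sum_le_sum_abs _ _).trans (Finset.sum_le_sum fun v _ => ?_)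
  rw [abs_mul, abs_mul, sg_abs, sg_abs, mul_one, mul_one, abs_of_nonneg (rr_nonneg R u v)]

/-- number of ordered pairs in the relation -/
lemma sum_rr_le (hsymm : ∀ u v, R u v → R v u) (d : ℕ)
    (hmin : ∀ u v, R u v → (univ.filter (fun w => R u w)).card = d ∨
      (univ.filter (fun w => R v w)).card = d) : ∑ u, ∑ v, rr R u v ≤ 2 * (d * n : ℝ) := by
  classical
  set deg : Fin n → ℕ := fun u => (univ.filter (fun w => R u w)).card with hdeg
  set g : Fin n → ℝ := fun u => if deg u = d then 1 else 0 with hg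
  have hg0 : ∀ u, 0 ≤ g u := fun u => by simp only [hg]; split_ifs <;> norm_num
  have h1 : ∀ u v, rr R u v ≤ g u * rr R u v + g v * rr R v u := by
    intro u v
    by_cases h : R u v
    · have e1 : rr R u v = 1 := if_pos h
      have e2 : rr R v u = 1 := if_pos (hsymm u v h)
      rw [e1, e2, mul_one, mul_one]
      rcases hmin u v h with h2 | h2
      · have : g u = 1 := if_pos h2
        rw [this]
        linarith [hg0 v]
      · have : g v = 1 := if_pos h2
        rw [this]
        linarith [hg0 u]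
    · have e1 : rr R u v = 0 := if_neg h
      rw [e1]
      have a1 := mul_nonneg (hg0 u) (rr_nonneg R u v)
      have a2 := mul_nonneg (hg0 v) (rr_nonneg R v u)
      rw [e1] at a1
      linarith
  have h2 : ∀ u, ∑ v, g u * rr R u v ≤ d := by
    intro u
    rw [← Finset.mul_sum, sum_rr]
    simp only [hg]
    split_ifs with h3
    · rw [one_mul]
      exact_mod_cast h3.le
    · rw [zero_mul]
      exact Nat.cast_nonneg d
  have h3 : ∑ u, ∑ v, rr R u v ≤ ∑ u, ∑ v, (g u * rr R u v + g v * rr R v u) :=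
    Finset.sum_le_sum fun u _ => Finset.sum_le_sum fun v _ => h1 u v
  have h4 : ∑ u : Fin n, ∑ v, (g u * rr R u v + g v * rr R v u) =
      ∑ u, ∑ v, g u * rr R u v + ∑ u, ∑ v, g u * rr R u v := by
    simp only [Finset.sum_add_distrib]
    congr 1
    exact Finset.sum_comm
  have h5 : ∑ u : Fin n, ∑ v, g u * rr R u v ≤ d * n := by
    refine (Finset.sum_le_sum fun u _ => h2 u).trans ?_
    rw [Finset.sum_const, Finset.card_univ, Fintype.card_fin, nsmul_eq_mul]
    linarith
  rw [h4] at h3
  linarith

lemma sg_flip (u v : Fin n) (y : St n) :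
    sg (flip u y v) = sg (y v) + (if v = u then -2 * sg (y u) else 0) := by
  unfold flip
  by_cases h : v = u
  · subst h
    rw [Function.update_self, sg_not, if_pos rfl]
    ring
  · rw [Function.update_of_ne h, if_neg h, add_zero]

lemma qf_flip (hsymm : ∀ u v, R u v → R v u) (hirr : ∀ u, ¬ R u u) (u : Fin n) (y : St n) :
    qf R (flip u y) = qf R y - 4 * (sg (y u) * fld R y u) := by
  classical
  have e1 : ∀ v w, rr R v w * (sg (flip u y v) * sg (flip u y w)) =
      rr R v w * (sg (y v) * sg (y w)) +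
      ((if w = u then rr R v w * sg (y v) * (-2 * sg (y u)) else 0) +
      ((if v = u then rr R v w * sg (y w) * (-2 * sg (y u)) else 0) +
      (if w = u then (if v = u then rr R v w * (4 * (sg (y u) * sg (y u))) else 0) else 0))) := by
    intro v w
    rw [sg_flip, sg_flip]
    split_ifs <;> ring
  unfold qf
  simp only [e1, Finset.sum_add_distrib]
  have t1 : ∑ v, ∑ w, (if w = u then rr R v w * sg (y v) * (-2 * sg (y u)) else 0) =
      -2 * (sg (y u) * fld R y u) := by
    have : ∀ v, ∑ w, (if w = u then rr R v w * sg (y v) * (-2 * sg (y u)) else 0) =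
        rr R v u * sg (y v) * (-2 * sg (y u)) := fun v => by
      rw [Finset.sum_ite_eq' univ u]
      rw [if_pos (Finset.mem_univ u)]
    simp only [this]
    unfold fld
    rw [Finset.mul_sum, Finset.mul_sum]
    refine Finset.sum_congr rfl fun v _ => ?_
    rw [rr_symm R hsymm v u]
    ring
  have t2 : ∑ v, ∑ w, (if v = u then rr R v w * sg (y w) * (-2 * sg (y u)) else 0) =
      -2 * (sg (y u) * fld R y u) := by
    rw [Finset.sum_comm]
    have : ∀ w, ∑ v, (if v = u then rr R v w * sg (y w) * (-2 * sg (y u)) else 0) =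
        rr R u w * sg (y w) * (-2 * sg (y u)) := fun w => by
      rw [Finset.sum_ite_eq' univ u]
      rw [if_pos (Finset.mem_univ u)]
    simp only [this]
    unfold fld
    rw [Finset.mul_sum, Finset.mul_sum]
    refine Finset.sum_congr rfl fun v _ => ?_
    ring
  have t3 : ∑ v, ∑ w, (if w = u then (if v = u then rr R v w * (4 * (sg (y u) * sg (y u)))
      else 0) else 0) = 0 := by
    refine Finset.sum_eq_zero fun v _ => Finset.sum_eq_zero fun w _ => ?_
    split_ifs with h1 h2
    · subst h1
      subst h2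
      rw [rr_self R hirr, zero_mul]
    · rfl
    · rfl
  rw [t1, t2, t3]
  ring

lemma fld_close (u : Fin n) (y z : St n) : |fld R y u - fld R z u| ≤ 2 * dist y z := by
  classical
  unfold fld
  rw [← Finset.sum_sub_distrib]
  refine (Finset.abs_sum_le_sum_abs _ _).trans ?_
  have h1 : ∀ v, |rr R u v * sg (y v) - rr R u v * sg (z v)| ≤
      2 * (if y v ≠ z v then 1 else 0) := by
    intro v
    rw [← mul_sub, abs_mul, abs_of_nonneg (rr_nonneg R u v)]
    have h2 := sg_sub_abs (y v) (z v)
    have h3 := rr_le_one R u v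
    have h4 := rr_nonneg R u v
    have h5 := abs_nonneg (sg (y v) - sg (z v))
    nlinarith
  refine (Finset.sum_le_sum fun v _ => h1 v).trans ?_
  rw [← Finset.mul_sum, Finset.sum_boole]
  unfold dist
  exact le_of_eq rfl

/-- the field in terms of the number of good neighbours -/
lemma fld_eq (u : Fin n) (z : St n) (ep : Bool) :
    (if ep = true then (1 : ℝ) else -1) * (sg (z u) * fld R z u) =
      2 * ((univ.filter (fun v => R u v ∧ (z v = z u ↔ ep = true))).card : ℝ) -
        ((univ.filter (fun v => R u v)).card : ℝ) := by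
  classical
  rw [← sum_rr R u, ← Finset.sum_boole, Finset.mul_sum]
  unfold fld
  rw [Finset.mul_sum, Finset.mul_sum, ← Finset.sum_sub_distrib]
  refine Finset.sum_congr rfl fun v _ => ?_
  by_cases h : R u v
  · have e1 : rr R u v = 1 := if_pos h
    rw [e1]
    simp only [h, true_and]
    cases z v <;> cases z u <;> cases ep <;> simp [sg] <;> norm_num
  · have e1 : rr R u v = 0 := if_neg h
    rw [e1]
    simp [h]

end

/-- the partition `z` of a relation `R` on `Fin n`, own side (`ep = true`) or other side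
(`ep = false`); `w` are the `r` weight functions which are balanced simultaneously -/
theorem graph_near {n r : ℕ} (R : Fin n → Fin n → Prop) [DecidableRel R]
    (hsymm : ∀ u v, R u v → R v u) (hirr : ∀ u, ¬ R u u) (w : Fin r → Fin n → ℝ)
    (hw : ∀ i v, |w i v| ≤ 1) (hr : 1 ≤ r) (k a b d : ℕ) (ha : 1 ≤ a) (hb : 1 ≤ b) (han : a < n)
    (harn : a + r ≤ n + 1)
    (hd : 2 * k + 2 * a + b ≤ d + 2) (hdeg : ∀ u, d ≤ (univ.filter (fun v => R u v)).card)
    (hmin : ∀ u v, R u v → (univ.filter (fun w => R u w)).card = d ∨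
      (univ.filter (fun w => R v w)).card = d) (ep : Bool) :
    ∃ z : Fin n → Bool,
      (∀ i, |∑ v, w i v * (if z v = true then 1 else -1)| ≤
        2 * r * d * n / (a * b) + (a - 1 + 2 * r)) ∧
      ∀ u, k ≤ (univ.filter (fun v => R u v ∧ (z v = z u ↔ ep = true))).card := by
  classical
  set ε : ℝ := if ep = true then (1 : ℝ) else -1 with hε
  have hε1 : |ε| = 1 := by rw [hε]; split_ifs <;> norm_num
  set E : St n → ℝ := fun x => ε * (1 / 2) * qf R x with hE
  set s : Fin r → St n → ℝ := fun i x => ∑ v, w i v * sg (x v) with hs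
  have hne : (univ : Finset (Fin r)).Nonempty := ⟨⟨0, hr⟩, Finset.mem_univ _⟩
  set p : St n → ℝ := fun x => univ.sup' hne (fun i => |s i x|) with hpdef
  have hsp : ∀ i x, |s i x| ≤ p x := fun i x =>
    Finset.le_sup' (fun i => |s i x|) (Finset.mem_univ i)
  have hps : ∀ x t, (∀ i, |s i x| ≤ t) → p x ≤ t := fun x t h =>
    Finset.sup'_le hne _ fun i _ => h i
  have hp0 : ∀ x, 0 ≤ p x := fun x => (abs_nonneg _).trans (hsp ⟨0, hr⟩ x)
  have hodd : ∀ i x, s i (tauS x) = - s i x := by
    intro i x
    simp only [hs]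
    rw [← Finset.sum_neg_distrib]
    refine Finset.sum_congr rfl fun v _ => ?_
    show w i v * sg (!(x v)) = _
    rw [sg_not]
    ring
  have hpe : ∀ x, p (tauS x) = p x := by
    intro x
    refine le_antisymm (hps _ _ fun i => ?_) (hps _ _ fun i => ?_)
    · rw [hodd, abs_neg]; exact hsp i x
    · have := hsp i (tauS x)
      rw [hodd, abs_neg] at this
      exact this
  have hlip : ∀ i x u, |s i (flip u x) - s i x| ≤ 2 := by
    intro i x u
    have e : s i (flip u x) - s i x = w i u * (-2 * sg (x u)) := by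
      simp only [hs]
      rw [← Finset.sum_sub_distrib]
      have : ∀ v, w i v * sg (flip u x v) - w i v * sg (x v) =
          if v = u then w i v * (-2 * sg (x u)) else 0 := by
        intro v
        rw [sg_flip]
        split_ifs <;> ring
      simp only [this]
      rw [Finset.sum_ite_eq' univ u, if_pos (Finset.mem_univ u)]
    rw [e, abs_mul, abs_mul, sg_abs]
    have := hw i u
    norm_num
    linarith
  have hplip : ∀ x u, p (flip u x) ≤ p x + 2 := by
    intro x u
    refine hps _ _ fun i => ?_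
    have h1 := hlip i x u
    have h2 := hsp i x
    have h3 : |s i (flip u x)| ≤ |s i (flip u x) - s i x| + |s i x| := by
      have := abs_add_le (s i (flip u x) - s i x) (s i x)
      rwa [sub_add_cancel] at this
    linarith
  have hEe : ∀ x, E (tauS x) = E x := fun x => by simp only [hE]; rw [qf_tau]
  have hEabs : ∀ x, |E x| ≤ d * n := by
    intro x
    simp only [hE]
    rw [abs_mul, abs_mul, hε1, one_mul]
    have h1 := qf_abs R x
    have h2 := sum_rr_le R hsymm d hmin
    rw [abs_of_pos (by norm_num : (0 : ℝ) < 1 / 2)]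
    linarith
  have hB : ∀ x y, E x - E y ≤ 2 * d * n := by
    intro x y
    have h1 := (abs_le.1 (hEabs x)).2
    have h2 := (abs_le.1 (hEabs y)).1
    linarith
  have hL : (0 : ℝ) < (b : ℝ) := by exact_mod_cast hb
  obtain ⟨z, l, hl0, hlb, hpz, hz⟩ := minimax E p s hEe hpe hp0 hps hodd hlip a ha han harn
    (b : ℝ) hL (2 * d * n) hB
  refine ⟨z, fun i => ?_, fun u => ?_⟩
  · have h1 := hsp i z
    have h2 : |s i z| ≤ r * (2 * d * n) / (a * b) + (a - 1 + 2 * r) := h1.trans hpz
    have h3 : (r : ℝ) * (2 * d * n) / (a * b) = 2 * r * d * n / (a * b) := by ring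
    rw [h3] at h2
    exact h2
  · obtain ⟨y, hy1, hy2, hy3, hy4⟩ := hz u
    have e1 : E (flip u y) = E y - 2 * (ε * (sg (y u) * fld R y u)) := by
      simp only [hE]
      rw [qf_flip R hsymm hirr]
      ring
    have h1 : E (flip u y) - E y ≤ l * (p (flip u y) - p y) := by linarith
    have h2 : l * (p (flip u y) - p y) ≤ l * 2 :=
      mul_le_mul_of_nonneg_left (by linarith [hplip y u]) hl0
    have h3 : - (b : ℝ) ≤ ε * (sg (y u) * fld R y u) := by linarith
    have h4 := fld_close R u y z
    have h5 : (dist y z : ℝ) ≤ a - 1 := by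
      have : ((dist y z : ℕ) : ℝ) ≤ ((a - 1 : ℕ) : ℝ) := by exact_mod_cast hy1
      rwa [Nat.cast_sub ha, Nat.cast_one] at this
    have h6 : |ε * (sg (y u) * fld R y u) - ε * (sg (z u) * fld R z u)| ≤ 2 * (a - 1) := by
      rw [hy2, ← mul_sub, ← mul_sub, abs_mul, abs_mul, hε1, sg_abs, one_mul, one_mul]
      linarith
    have h7 := (abs_le.1 h6).2
    have h8 := fld_eq R u z ep
    rw [← hε] at h8
    have h9 : ((univ.filter (fun v => R u v)).card : ℝ) ≥ d := by exact_mod_cast hdeg u
    have h10 : (2 * k + 2 * a + b : ℝ) ≤ d + 2 := by exact_mod_cast hd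
    have h11 : (k : ℝ) ≤ ((univ.filter (fun v => R u v ∧ (z v = z u ↔ ep = true))).card : ℝ) := by
      linarith
    exact_mod_cast h11


end Pool.Agent.helper79.NB
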