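import Pool.Agent.helper79.NB.Alg

set_option autoImplicit false

namespace Pool.Agent.helper79.NB

open Finset

/-!
Proof sketch of `sep`.  Classical decidability everywhere (`open Classical in` or `classical`).
Let `pos f := ∀ x, Ext f x → 0 < s x`, `neg f := ∀ x, Ext f x → s x < 0`.
For a chain `c` put `P c f = if pos f then c f else 0`, `N c f = if neg f then c f else 0`,
`Z c = c + P c + N c` (mod 2: the part on the cells which are neither pos nor neg; note pos and neg
exclude each other because `exists_ext`).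
`d i = bd (P (c (i+1))) + P (c i) + tau (N (c i)) + tau (Z (c i))`
    `= bd (P (c (i+1))) + P (c i) + tau (c i) + tau (P (c i))`   (mod 2).
* `∑ d 0 = ∑ P c0 + ∑ c0 + ∑ P c0 = 1` (sum_bd, sum_tau).
* for `i < j`: `bd (d (i+1)) = bd (P c(i+1)) + tau (bd c(i+1)) + tau (bd (P c(i+1)))`, and
  `tau (bd c(i+1)) = bd c(i+1) = c i + tau (c i)`; so it equals `d i + tau (d i)`.
* support: pointwise, using `neg (tauC f) ↔ pos f` and `bd c(i+1) f = c i f + c i (tauC f)`,
  `d i f = (if pos f then ∑ u, if f u = none ∨ pos (free f u) then 0 else c(i+1) (free f u) else 0)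
           + (if pos (tauC f) ∨ neg (tauC f) then 0 else c i (tauC f))`.
  If the first part is nonzero: some `u` with `c(i+1) (free f u) ≠ 0`, so `free f u` has dimension
  `i+1` (dm_free: `dm f = i`), all its vertices are in `S`, there is a vertex `x` of it with
  `s x ≤ 0`, so for each vertex `y` of `f` we have `0 < s y ≤ s x + 2*(i+1)` (lip_dist, dist_le_dm,
  ext_free).  If the second is nonzero: `tauC f` has a vertex `x` with `s x ≤ 0` and a vertex `x'`
  with `0 ≤ s x'` so `|s y| = |s (tauS y)| ≤ 2*i` for all vertices `y` of `f`; `S` symmetric.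
-/

section

variable {n : ℕ}

/-- `s` is positive on the cell `f` -/
def Pos (s : St n → ℝ) (f : Cell n) : Prop := ∀ x, Ext f x → 0 < s x

open Classical in
/-- the part of the chain `c` on the cells on which `s` is positive -/
noncomputable def Pp (s : St n → ℝ) (c : Ch n) : Ch n := fun f => if Pos s f then c f else 0

/-- the pieces of the cut chain -/
noncomputable def cut (s : St n → ℝ) (c : ℕ → Ch n) (i : ℕ) : Ch n :=
  bd (Pp s (c (i + 1))) + Pp s (c i) + tau (c i) + tau (Pp s (c i))

theorem pos_of_free {s : St n → ℝ} {f : Cell n} {u : Fin n} (h : Pos s (free f u)) : Pos s f :=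
  fun x hx => h x (ext_free f u x hx)

theorem ext_tauS {f : Cell n} {x : St n} (h : Ext f x) : Ext (tauC f) (tauS x) := by
  rw [ext_tauC, tauS_tauS]
  exact h

theorem not_pos_tauC {s : St n → ℝ} (hodd : ∀ x, s (tauS x) = - s x) {f : Cell n} (h : Pos s f) :
    ¬ Pos s (tauC f) := by
  intro h'
  obtain ⟨x, hx⟩ := exists_ext f
  have h1 := h x hx
  have h2 := h' (tauS x) (ext_tauS hx)
  rw [hodd] at h2
  linarith

theorem cut_sum {s : St n → ℝ} {c : ℕ → Ch n} (h : ∑ f, c 0 f = 1) : ∑ f, cut s c 0 f = 1 := by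
  have h1 : ∑ f, cut s c 0 f = ∑ f, bd (Pp s (c 1)) f + ∑ f, Pp s (c 0) f + ∑ f, tau (c 0) f +
      ∑ f, tau (Pp s (c 0)) f := by
    rw [← Finset.sum_add_distrib, ← Finset.sum_add_distrib, ← Finset.sum_add_distrib]
    rfl
  rw [h1, sum_bd, sum_tau, sum_tau, h, zero_add, add_right_comm, CharTwo.add_self_eq_zero, zero_add]

theorem cut_bd {s : St n → ℝ} {c : ℕ → Ch n} {i : ℕ} (h : bd (c (i + 1)) = c i + tau (c i)) :
    bd (cut s c (i + 1)) = cut s c i + tau (cut s c i) := by
  unfold cut
  rw [bd_add, bd_add, bd_add, bd_bd, bd_tau, bd_tau, h]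
  simp only [tau_add, tau_tau]
  have h1 := add_self_ch (Pp s (c i))
  have h2 := add_self_ch (tau (Pp s (c i)))
  have h3 : bd (Pp s (c (i + 1))) + Pp s (c i) + tau (c i) + tau (Pp s (c i)) +
      (tau (bd (Pp s (c (i + 1)))) + tau (Pp s (c i)) + c i + Pp s (c i)) =
      bd (Pp s (c (i + 1))) + (tau (c i) + c i) + tau (bd (Pp s (c (i + 1)))) +
        (Pp s (c i) + Pp s (c i)) + (tau (Pp s (c i)) + tau (Pp s (c i))) := by
    ac_rfl
  rw [h3, h1, h2, add_zero, add_zero, zero_add]

theorem cut_supp {s : St n → ℝ} {S : Finset (St n)} (hS : Sym S)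
    (hodd : ∀ x, s (tauS x) = - s x) (hlip : ∀ x u, |s (flip u x) - s x| ≤ 2) {c : ℕ → Ch n}
    {i j : ℕ} (hij : i ≤ j) (h0 : Supp S i (c i)) (h1 : Supp S (i + 1) (c (i + 1)))
    (hb : bd (c (i + 1)) = c i + tau (c i)) :
    Supp (S.filter (fun x => |s x| ≤ 2 * ((j : ℝ) + 1))) i (cut s c i) := by
  classical
  intro f hf
  have hij' : (i : ℝ) ≤ j := by exact_mod_cast hij
  have hsum : cut s c i f = (∑ u, if f u = none then 0 else Pp s (c (i + 1)) (free f u)) +
      Pp s (c i) f + c i (tauC f) + Pp s (c i) (tauC f) := rfl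
  by_cases hp : Pos s f
  · have e1 : Pp s (c i) f = c i f := if_pos hp
    have e2 : Pp s (c i) (tauC f) = 0 := if_neg (not_pos_tauC hodd hp)
    have e3 : c i f + c i (tauC f) = ∑ u, if f u = none then 0 else c (i + 1) (free f u) :=
      (congrFun hb f).symm
    have e4 : cut s c i f = ∑ u, ((if f u = none then 0 else Pp s (c (i + 1)) (free f u)) +
        (if f u = none then 0 else c (i + 1) (free f u))) := by
      rw [hsum, e1, e2, add_zero, add_assoc, e3, ← Finset.sum_add_distrib]
    rw [e4] at hf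
    obtain ⟨u, -, hu⟩ := Finset.exists_ne_zero_of_sum_ne_zero hf
    by_cases hfu : f u = none
    · rw [if_pos hfu, if_pos hfu, add_zero] at hu
      exact (hu rfl).elim
    · rw [if_neg hfu, if_neg hfu] at hu
      have hnp : ¬ Pos s (free f u) := by
        intro hpp
        have e5 : Pp s (c (i + 1)) (free f u) = c (i + 1) (free f u) := if_pos hpp
        rw [e5] at hu
        exact hu (CharTwo.add_self_eq_zero _)
      have e6 : Pp s (c (i + 1)) (free f u) = 0 := if_neg hnp
      rw [e6, zero_add] at hu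
      obtain ⟨hd, hin⟩ := h1 _ hu
      have hd2 : dm f = i := by
        have := dm_free f u hfu
        omega
      refine ⟨hd2, fun y hy => ?_⟩
      unfold Pos at hnp
      push Not at hnp
      obtain ⟨x, hx, hsx⟩ := hnp
      have hy' := ext_free f u y hy
      refine Finset.mem_filter.2 ⟨hin y hy', ?_⟩
      have h2 := lip_dist s 2 (by norm_num) hlip y x
      have h3 : (dist y x : ℝ) ≤ (i : ℝ) + 1 := by
        have := dist_le_dm _ y x hy' hx
        rw [hd] at this
        exact_mod_cast this
      have h4 := hp y hy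
      rw [abs_of_pos h4]
      have h5 := le_abs_self (s y - s x)
      linarith
  · have e1 : Pp s (c i) f = 0 := if_neg hp
    have e2 : (∑ u, if f u = none then 0 else Pp s (c (i + 1)) (free f u)) = 0 := by
      refine Finset.sum_eq_zero fun u _ => ?_
      by_cases hfu : f u = none
      · rw [if_pos hfu]
      · rw [if_neg hfu]
        exact if_neg fun h => hp (pos_of_free h)
    rw [hsum, e1, e2, zero_add, zero_add] at hf
    have hnp : ¬ Pos s (tauC f) := by
      intro hpp
      have e5 : Pp s (c i) (tauC f) = c i (tauC f) := if_pos hpp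
      rw [e5] at hf
      exact hf (CharTwo.add_self_eq_zero _)
    have e6 : Pp s (c i) (tauC f) = 0 := if_neg hnp
    rw [e6, add_zero] at hf
    obtain ⟨hd, hin⟩ := h0 _ hf
    rw [dm_tauC] at hd
    refine ⟨hd, fun y hy => ?_⟩
    unfold Pos at hnp hp
    push Not at hnp hp
    obtain ⟨x, hx, hsx⟩ := hp
    obtain ⟨x', hx', hsx'⟩ := hnp
    rw [ext_tauC] at hx'
    have hy2 : y ∈ S := by
      have := hS _ (hin (tauS y) (ext_tauS hy))
      rwa [tauS_tauS] at this
    refine Finset.mem_filter.2 ⟨hy2, ?_⟩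
    have key : ∀ w, Ext f w → |s y - s w| ≤ 2 * (i : ℝ) := by
      intro w hw
      have h2 := lip_dist s 2 (by norm_num) hlip y w
      have h3 : (dist y w : ℝ) ≤ (i : ℝ) := by
        have := dist_le_dm f y w hy hw
        rw [hd] at this
        exact_mod_cast this
      linarith
    have k1 := abs_le.1 (key x hx)
    have k2 := abs_le.1 (key (tauS x') hx')
    rw [hodd] at k2
    rw [abs_le]
    constructor <;> linarith [k1.1, k1.2, k2.1, k2.2]

end

/-- cutting at the zero set of an odd function costs one index -/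
theorem sep {n : ℕ} (S : Finset (St n)) (hS : Sym S) (s : St n → ℝ)
    (hodd : ∀ x, s (tauS x) = - s x) (hlip : ∀ x u, |s (flip u x) - s x| ≤ 2) (j : ℕ)
    (h : Ind S (j + 1)) : Ind (S.filter (fun x => |s x| ≤ 2 * ((j : ℝ) + 1))) j := by
  obtain ⟨c, hc, hsum, hbd⟩ := h
  refine ⟨cut s c, fun i hi => ?_, cut_sum hsum, fun i hi => cut_bd (hbd i (by omega))⟩
  exact cut_supp hS hodd hlip hi (hc i (by omega)) (hc (i + 1) (by omega)) (hbd i (by omega))

/-- several odd functions at once (induction on `r` with `sep`; `Fin.init`/`Fin.succ` or Finset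
induction over the set of indices; the filtered sets stay symmetric; use `Ind.mono` at the end) -/
theorem sep_many {n r : ℕ} (S : Finset (St n)) (hS : Sym S) (s : Fin r → St n → ℝ)
    (hodd : ∀ i x, s i (tauS x) = - s i x) (hlip : ∀ i x u, |s i (flip u x) - s i x| ≤ 2) (j : ℕ)
    (h : Ind S (j + r)) :
    Ind (S.filter (fun x => ∀ i, |s i x| ≤ 2 * ((j : ℝ) + r))) j := by
  induction r generalizing S with
  | zero =>
    refine Ind.mono h fun x hx => Finset.mem_filter.2 ⟨hx, fun i => i.elim0⟩
  | succ r ih =>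
    have h1 := sep S hS (s 0) (hodd 0) (hlip 0) (j + r) h
    have hS' : Sym (S.filter (fun x => |s 0 x| ≤ 2 * (((j + r : ℕ) : ℝ) + 1))) := by
      intro x hx
      obtain ⟨h2, h3⟩ := Finset.mem_filter.1 hx
      refine Finset.mem_filter.2 ⟨hS x h2, ?_⟩
      rw [hodd, abs_neg]
      exact h3
    have h4 := ih _ hS' (fun i => s i.succ) (fun i => hodd i.succ) (fun i => hlip i.succ) h1
    refine Ind.mono h4 fun x hx => ?_
    obtain ⟨h5, h6⟩ := Finset.mem_filter.1 hx
    obtain ⟨h7, h8⟩ := Finset.mem_filter.1 h5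
    refine Finset.mem_filter.2 ⟨h7, fun i => ?_⟩
    push_cast at h8 ⊢
    refine Fin.cases ?_ (fun i => ?_) i
    · linarith
    · have h9 := h6 i
      linarith

end Pool.Agent.helper79.NB
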