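import Pool.Agent.helper79.NB.Crit
import Pool.Agent.helper79.NB.Sep
import Pool.Agent.helper79.NB.Full

set_option autoImplicit false

namespace Pool.Agent.helper79.NB

open Finset

/-- the minimax value of `G` at index `i`, by its characteristic property -/
theorem exists_mv {n : ℕ} (G : St n → ℝ) (i : ℕ) (hi : i ≤ n) :
    ∃ m : ℝ, ∀ c, Ind (univ.filter (fun x => c ≤ G x)) i ↔ c ≤ m := by
  classical
  set V : Finset ℝ :=
    (univ.image G).filter (fun c => Ind (univ.filter (fun x => c ≤ G x)) i) with hV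
  have hne : (univ.image G).Nonempty := Finset.univ_nonempty.image G
  have hVne : V.Nonempty := by
    refine ⟨(univ.image G).min' hne, ?_⟩
    rw [hV, mem_filter]
    refine ⟨Finset.min'_mem _ _, ?_⟩
    have h1 : univ.filter (fun x => (univ.image G).min' hne ≤ G x) = univ := by
      apply Finset.filter_true_of_mem
      intro x _
      exact Finset.min'_le _ _ (Finset.mem_image_of_mem G (mem_univ x))
    rw [h1]
    exact ind_univ i hi
  refine ⟨V.max' hVne, fun c => ⟨fun h => ?_, fun h => ?_⟩⟩
  · have hne2 : ((univ.filter (fun x => c ≤ G x)).image G).Nonempty := h.nonempty.image G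
    set c' := ((univ.filter (fun x => c ≤ G x)).image G).min' hne2 with hc'
    have hmem : c' ∈ (univ.filter (fun x => c ≤ G x)).image G := Finset.min'_mem _ _
    obtain ⟨x, hx, hxc⟩ := Finset.mem_image.mp hmem
    have hcc : c ≤ c' := by
      rw [← hxc]
      exact (mem_filter.mp hx).2
    have hV' : c' ∈ V := by
      rw [hV, mem_filter]
      refine ⟨?_, ?_⟩
      · rw [← hxc]
        exact Finset.mem_image_of_mem G (mem_univ x)
      · apply h.mono
        intro y hy
        rw [mem_filter]
        exact ⟨mem_univ y, Finset.min'_le _ _ (Finset.mem_image_of_mem G hy)⟩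
    exact hcc.trans (Finset.le_max' V c' hV')
  · have hm := (mem_filter.mp (Finset.max'_mem V hVne)).2
    apply hm.mono
    intro y hy
    rw [mem_filter] at hy ⊢
    exact ⟨mem_univ y, h.trans hy.2⟩

theorem not_ind_gt {n : ℕ} (G : St n → ℝ) (i : ℕ) (m : ℝ)
    (hm : ∀ c, Ind (univ.filter (fun x => c ≤ G x)) i ↔ c ≤ m) :
    ¬ Ind (univ.filter (fun x => m < G x)) i := by
  intro h
  have hne := h.nonempty
  have h1 : m < (univ.filter (fun x => m < G x)).inf' hne G := by
    rw [Finset.lt_inf'_iff]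
    intro x hx
    exact (mem_filter.mp hx).2
  have h2 : Ind (univ.filter (fun x => (univ.filter (fun x => m < G x)).inf' hne G ≤ G x)) i := by
    apply h.mono
    intro x hx
    rw [mem_filter]
    exact ⟨mem_univ x, Finset.inf'_le G hx⟩
  exact absurd ((hm _).mp h2) (not_le.mpr h1)

/-- a positive function on a finite set is bounded below by a positive constant -/
theorem exists_gap {α : Type} (F : Finset α) (g : α → ℝ) (hg : ∀ x ∈ F, 0 < g x) :
    ∃ δ : ℝ, 0 < δ ∧ ∀ x ∈ F, δ ≤ g x := by
  rcases F.eq_empty_or_nonempty with h | h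
  · exact ⟨1, one_pos, fun x hx => by rw [h] at hx; exact absurd hx (Finset.notMem_empty x)⟩
  · exact ⟨F.inf' h g, (Finset.lt_inf'_iff h).mpr hg, fun x hx => Finset.inf'_le g hx⟩

theorem sum_two_range (J : ℕ) (r : ℝ) :
    ∑ i ∈ range J, 2 * ((i : ℝ) + r) = J * (J - 1 + 2 * r) := by
  induction J with
  | zero => simp
  | succ J ih =>
    rw [Finset.sum_range_succ, ih]
    push_cast
    ring

/-- main minimax statement for `E - l p`, where `p` is controlled by `r` odd functions -/
theorem minimax {n r : ℕ} (E p : St n → ℝ) (s : Fin r → St n → ℝ) (hE : ∀ x, E (tauS x) = E x)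
    (hp : ∀ x, p (tauS x) = p x) (hp0 : ∀ x, 0 ≤ p x)
    (hps : ∀ x t, (∀ i, |s i x| ≤ t) → p x ≤ t)
    (hodd : ∀ i x, s i (tauS x) = - s i x) (hlip : ∀ i x u, |s i (flip u x) - s i x| ≤ 2)
    (J : ℕ) (hJ : 1 ≤ J) (hJn : J < n) (hJr : J + r ≤ n + 1)
    (L : ℝ) (hL : 0 < L) (B : ℝ) (hB : ∀ x y, E x - E y ≤ B) :
    ∃ z : St n, ∃ l : ℝ, 0 ≤ l ∧ l ≤ L ∧ p z ≤ r * B / (J * L) + (J - 1 + 2 * r) ∧
      ∀ u, ∃ y, dist y z ≤ J - 1 ∧ y u = z u ∧ E z - l * p z ≤ E y - l * p y ∧
        E (flip u y) - l * p (flip u y) ≤ E z - l * p z := by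
  classical
  have H : ∀ i, ∃ v : ℝ → ℝ, i ≤ n → ∀ l c,
      Ind (univ.filter (fun x => c ≤ E x - l * p x)) i ↔ c ≤ v l := by
    intro i
    by_cases hi : i ≤ n
    · choose v hv using fun l : ℝ => exists_mv (fun x => E x - l * p x) i hi
      exact ⟨v, fun _ => hv⟩
    · exact ⟨fun _ => 0, fun h => absurd h hi⟩
  choose val hval using H
  set β : ℝ := r * B / (J * L) + (J - 1 + 2 * r) with hβ
  have hJ0 : (0 : ℝ) < J := by exact_mod_cast hJ
  -- (1)
  have h1 : ∀ i, i + r ≤ n → val (i + r) 0 - L * (2 * ((i : ℝ) + r)) ≤ val i L := by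
    intro i hi
    have hA : Ind (univ.filter (fun x => val (i + r) 0 ≤ E x - 0 * p x)) (i + r) :=
      (hval (i + r) hi 0 _).mpr le_rfl
    have hS : Sym (univ.filter (fun x => val (i + r) 0 ≤ E x - 0 * p x)) := by
      intro x hx
      rw [mem_filter] at hx ⊢
      refine ⟨mem_univ _, ?_⟩
      rw [hE, hp]
      exact hx.2
    have hC := sep_many _ hS s hodd hlip i hA
    rw [← hval i (by omega) L]
    apply hC.mono
    intro x hx
    rw [mem_filter, mem_filter] at hx
    rw [mem_filter]
    refine ⟨mem_univ x, ?_⟩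
    have h2 : val (i + r) 0 ≤ E x := by
      have := hx.1.2
      rwa [zero_mul, sub_zero] at this
    have h3 : p x ≤ 2 * ((i : ℝ) + r) := hps x _ hx.2
    have h4 : L * p x ≤ L * (2 * ((i : ℝ) + r)) := mul_le_mul_of_nonneg_left h3 hL.le
    linarith
  -- values at `l = 0`
  have h2 : ∀ i j, i ≤ n → j ≤ n → val i 0 - val j 0 ≤ B := by
    intro i j hi hj
    obtain ⟨x, hx⟩ := ((hval i hi 0 _).mpr (le_refl (val i 0))).nonempty
    obtain ⟨y, _, hy⟩ := Finset.exists_min_image (univ : Finset (St n)) E ⟨x, mem_univ x⟩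
    have hy2 : E y ≤ val j 0 := by
      rw [← hval j hj 0]
      have : univ.filter (fun x => E y ≤ E x - 0 * p x) = univ := by
        apply Finset.filter_true_of_mem
        intro w _
        rw [zero_mul, sub_zero]
        exact hy w (mem_univ w)
      rw [this]
      exact ind_univ j hj
    have hx2 := (mem_filter.mp hx).2
    have h3 := hB x y
    linarith
  -- (2)
  have h3 : ∑ i ∈ range J, (val i 0 - val i L) ≤ ∑ i ∈ range J, β * L := by
    have e1 : ∑ i ∈ range J, (val i 0 - val i L) ≤
        ∑ i ∈ range J, (val i 0 - val (i + r) 0 + L * (2 * ((i : ℝ) + r))) := by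
      apply Finset.sum_le_sum
      intro i hi
      have := h1 i (by have := mem_range.mp hi; omega)
      linarith
    have e2 : ∑ i ∈ range J, val i 0 + ∑ i ∈ range r, val (J + i) 0 =
        ∑ i ∈ range r, val i 0 + ∑ i ∈ range J, val (r + i) 0 := by
      rw [← Finset.sum_range_add (fun i => val i 0) J r,
        ← Finset.sum_range_add (fun i => val i 0) r J, add_comm J r]
    have e3 : ∑ i ∈ range r, (val i 0 - val (J + i) 0) ≤ r * B := by
      have : ∑ i ∈ range r, (val i 0 - val (J + i) 0) ≤ ∑ i ∈ range r, B := by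
        apply Finset.sum_le_sum
        intro i hi
        have hi' := mem_range.mp hi
        exact h2 i (J + i) (by omega) (by omega)
      rwa [Finset.sum_const, card_range, nsmul_eq_mul] at this
    have e4 : ∑ i ∈ range J, (val i 0 - val (i + r) 0 + L * (2 * ((i : ℝ) + r))) =
        ∑ i ∈ range r, (val i 0 - val (J + i) 0) + L * (J * (J - 1 + 2 * r)) := by
      rw [Finset.sum_add_distrib, ← Finset.mul_sum, sum_two_range, Finset.sum_sub_distrib,
        Finset.sum_sub_distrib]
      have e5 : ∑ i ∈ range J, val (i + r) 0 = ∑ i ∈ range J, val (r + i) 0 :=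
        Finset.sum_congr rfl (fun i _ => by rw [add_comm])
      rw [e5]
      linarith
    have e6 : ∑ i ∈ range J, β * L = r * B + L * (J * (J - 1 + 2 * r)) := by
      rw [Finset.sum_const, card_range, nsmul_eq_mul, hβ]
      field_simp
    rw [e6]
    linarith
  obtain ⟨j, hj, hjβ⟩ := Finset.exists_le_of_sum_le
    (⟨0, mem_range.mpr hJ⟩ : (range J).Nonempty) h3
  have hjJ : j < J := mem_range.mp hj
  have hjn : j ≤ n := by omega
  -- (3)
  obtain ⟨M, hM0, hM⟩ : ∃ M : ℝ, 0 ≤ M ∧ ∀ x, p x ≤ M := by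
    refine ⟨∑ x, p x, Finset.sum_nonneg (fun x _ => hp0 x), fun x => ?_⟩
    exact Finset.single_le_sum (fun y _ => hp0 y) (mem_univ x)
  have hlipv : ∀ l l', val j l ≤ val j l' + M * |l - l'| := by
    intro l l'
    have hA : Ind (univ.filter (fun x => val j l ≤ E x - l * p x)) j :=
      (hval j hjn l _).mpr le_rfl
    have hC : Ind (univ.filter (fun x => val j l - M * |l - l'| ≤ E x - l' * p x)) j := by
      apply hA.mono
      intro x hx
      rw [mem_filter] at hx ⊢
      refine ⟨mem_univ x, ?_⟩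
      have h5 : (l' - l) * p x ≤ M * |l - l'| := by
        have h6 : (l' - l) * p x ≤ |l - l'| * p x := by
          apply mul_le_mul_of_nonneg_right _ (hp0 x)
          rw [abs_sub_comm]
          exact le_abs_self _
        have h7 : |l - l'| * p x ≤ |l - l'| * M := mul_le_mul_of_nonneg_left (hM x) (abs_nonneg _)
        linarith
      have := hx.2
      linarith
    have := (hval j hjn l' _).mp hC
    linarith
  have hcont : Continuous (fun l => val j l + β * l) := by
    apply Continuous.add _ (continuous_const.mul continuous_id)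
    have hL' : LipschitzWith (Real.toNNReal M) (val j) := by
      apply LipschitzWith.of_dist_le_mul
      intro l l'
      rw [Real.dist_eq, Real.dist_eq, Real.coe_toNNReal M hM0, abs_le]
      have h5 := hlipv l l'
      have h6 := hlipv l' l
      rw [abs_sub_comm] at h6
      constructor <;> linarith
    exact hL'.continuous
  obtain ⟨l0, hl0, hmax0⟩ := (isCompact_Icc (a := (0 : ℝ)) (b := L)).exists_isMaxOn
    ⟨0, ⟨le_rfl, hL.le⟩⟩ hcont.continuousOn
  obtain ⟨l1, hl1, hl1L, hmax⟩ : ∃ l1 : ℝ, 0 < l1 ∧ l1 ≤ L ∧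
      ∀ l, 0 ≤ l → l ≤ L → val j l + β * l ≤ val j l1 + β * l1 := by
    rcases eq_or_lt_of_le hl0.1 with h | h
    · refine ⟨L, hL, le_rfl, fun l h5 h6 => ?_⟩
      have h7 := hmax0 (show l ∈ Set.Icc (0 : ℝ) L from ⟨h5, h6⟩)
      simp only [Set.mem_ofPred_eq] at h7
      rw [← h] at h7
      have h8 : β * 0 = 0 := mul_zero β
      linarith
    · refine ⟨l0, h, hl0.2, fun l h5 h6 => ?_⟩
      have h7 := hmax0 (show l ∈ Set.Icc (0 : ℝ) L from ⟨h5, h6⟩)
      simpa only [Set.mem_ofPred_eq] using h7
  -- (4)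
  set c := val j l1 with hc
  have hG : ∀ x, (fun x => E x - l1 * p x) (tauS x) = (fun x => E x - l1 * p x) x := by
    intro x
    simp only
    rw [hE, hp]
  obtain ⟨T, hTne, hTc, hTind, hT⟩ := crit (fun x => E x - l1 * p x) hG j (by omega) c
    ((hval j hjn l1 _).mpr le_rfl)
    (not_ind_gt (fun x => E x - l1 * p x) j c (hval j hjn l1))
  obtain ⟨z, hzT, hzp⟩ : ∃ z ∈ T, p z ≤ β := by
    by_contra hcon
    push Not at hcon
    obtain ⟨δ, hδ, hδ2⟩ := exists_gap (univ.filter (fun x => c < E x - l1 * p x))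
      (fun x => E x - l1 * p x - c) (fun x hx => by
        have := (mem_filter.mp hx).2
        linarith)
    obtain ⟨ε, hε, hε2⟩ := exists_gap T (fun x => p x - β) (fun x hx => by
      have := hcon x hx
      linarith)
    set t : ℝ := min l1 (δ / (2 * (|β| + 1))) with ht
    have hβ1 : 0 < 2 * (|β| + 1) := by positivity
    have ht0 : 0 < t := lt_min hl1 (div_pos hδ hβ1)
    have htl : t ≤ l1 := min_le_left _ _
    have htδ : t * (2 * (|β| + 1)) ≤ δ := by
      have : t ≤ δ / (2 * (|β| + 1)) := min_le_right _ _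
      rwa [le_div_iff₀ hβ1] at this
    have htβ : β * t ≤ δ / 2 := by
      have h5 : β * t ≤ |β| * t := mul_le_mul_of_nonneg_right (le_abs_self β) ht0.le
      nlinarith
    have hκ : 0 < min (δ / 2) (t * ε) := lt_min (by linarith) (mul_pos ht0 hε)
    have hInd : Ind (univ.filter (fun x => c + β * t + min (δ / 2) (t * ε) ≤
        E x - (l1 - t) * p x)) j := by
      apply hTind.mono
      intro x hx
      rw [mem_filter]
      refine ⟨mem_univ x, ?_⟩
      rcases mem_union.mp hx with hx | hx
      · have h5 := hδ2 x hx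
        have h6 : 0 ≤ t * p x := mul_nonneg ht0.le (hp0 x)
        have h7 : min (δ / 2) (t * ε) ≤ δ / 2 := min_le_left _ _
        have h8 : E x - (l1 - t) * p x = E x - l1 * p x + t * p x := by ring
        rw [h8]
        linarith
      · have h5 := hε2 x hx
        have h6 : t * (β + ε) ≤ t * p x := mul_le_mul_of_nonneg_left (by linarith) ht0.le
        have h7 : min (δ / 2) (t * ε) ≤ t * ε := min_le_right _ _
        have h8 : E x - (l1 - t) * p x = E x - l1 * p x + t * p x := by ring
        have h9 : E x - l1 * p x = c := hTc x hx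
        rw [h8, h9]
        nlinarith
    have h5 := (hval j hjn (l1 - t) _).mp hInd
    have h6 := hmax (l1 - t) (by linarith) (by linarith)
    have h7 : β * (l1 - t) = β * l1 - β * t := by ring
    linarith
  refine ⟨z, l1, hl1.le, hl1L, hzp, fun u => ?_⟩
  obtain ⟨y, hy1, hy2, hy3, hy4⟩ := hT z hzT u
  have hzc : E z - l1 * p z = c := hTc z hzT
  refine ⟨y, by omega, hy2, ?_, ?_⟩
  · rw [hzc]; exact hy3
  · rw [hzc]; exact hy4

end Pool.Agent.helper79.NB
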