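import Pool.Agent.helper79.NB.Alg

set_option autoImplicit false

namespace Pool.Agent.helper79.NB

open Finset

/-!
Proof sketch of `push`.  For a vertex `z` put (classical decidability)
`D z c W = if W u = none ∧ Ext W z then c (Function.update W u (some (z u))) else 0` and
`DD c = D z c + D (tauS z) c`, `r c = c + bd (DD c) + DD (bd c)`.
* `DD (tau c) = tau (DD c)`, so `r (tau c) = tau (r c)`; `bd (r c) = bd c + bd (DD (bd c)) = r (bd c)`
  (bd_bd); `r` is additive; `D` raises the dimension by 1 (`c` supported in dimension `i` gives
  `DD c` supported in dimension `i+1` and `r c` in dimension `i`); for `i = 0`: `bd c = 0` (a coface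
  has dimension ≥ 1), so `∑ r c = ∑ c`.
* New chains `r (c i)`: `bd (r (c (i+1))) = r (bd (c (i+1))) = r (c i) + tau (r (c i))`.
* Support: let `c = c i`, `i ≤ j`, `dm f = i`. No cell of dimension `≤ j+1 < n` contains both `z` and
  `tauS z` (they differ in all coordinates, so all coordinates would be free).
  (a) `Ext f z`, `f u = none`: `DD (bd c) f = bd c (f[u:=z u]) = c f + ∑_{v ≠ u, f v ≠ none}
      c (free f v)[u:=z u]` and `bd (DD c) f = ∑_{f v ≠ none} c ((free f v)[u:=z u])`: so `r c f = 0`.
  (b) `Ext f z`, `f u = some (z u)`: `DD (bd c) f = 0`, `bd (DD c) f` has only the term `v = u`,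
      namely `c f`. So `r c f = 0`.   Same for `tauS z` in place of `z`.
  (c) `f` contains neither: `DD (bd c) f = 0`. If `r c f ≠ 0` then `c f ≠ 0` (then all vertices of
      `f` are in `S`), or `DD c (free f v) ≠ 0` for some `v` with `f v ≠ none`; say the `z` part:
      `W = free f v`, `W u = none`, `Ext W z`, `c (W[u:=z u]) ≠ 0`, so all vertices `y` of
      `W[u:=z u]` are in `insert z (insert (tauS z) S)` and have `y u = z u`, `dist y z ≤ i ≤ j`
      (dist_le_dm). Let `y` be a vertex of `f`. If `y u = z u`, then `y` is a vertex of `W[u:=z u]`,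
      it is not `z` (not in `f`) and not `tauS z`, so `y ∈ S`. If `y u ≠ z u` then `flip u y` is a
      vertex of `W[u:=z u]` and `hcone` gives `y = flip u (flip u y) ∈ S`.
      For the `tauS z` part apply the same to `tauS`.
-/

variable {n : ℕ}

open Classical in
/-- chain homotopy at `z` in the direction `u` -/
noncomputable def Push_D (u : Fin n) (z : St n) (c : Ch n) : Ch n := fun W =>
  if W u = none ∧ Ext W z then c (Function.update W u (some (z u))) else 0

noncomputable def Push_DD (u : Fin n) (z : St n) (c : Ch n) : Ch n :=
  Push_D u z c + Push_D u (tauS z) c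

noncomputable def Push_r (u : Fin n) (z : St n) (c : Ch n) : Ch n :=
  c + bd (Push_DD u z c) + Push_DD u z (bd c)

theorem Push_D_add (u : Fin n) (z : St n) (c d : Ch n) :
    Push_D u z (c + d) = Push_D u z c + Push_D u z d := by
  funext W
  simp only [Push_D, Pi.add_apply]
  split_ifs with h
  · rfl
  · rw [add_zero]

theorem Push_D_zero (u : Fin n) (z : St n) : Push_D u z 0 = 0 := by
  funext W
  simp only [Push_D, Pi.zero_apply, ite_self]

theorem Push_DD_add (u : Fin n) (z : St n) (c d : Ch n) :
    Push_DD u z (c + d) = Push_DD u z c + Push_DD u z d := by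
  rw [Push_DD, Push_DD, Push_DD, Push_D_add, Push_D_add]
  abel

theorem Push_DD_zero (u : Fin n) (z : St n) : Push_DD u z 0 = 0 := by
  rw [Push_DD, Push_D_zero, Push_D_zero, add_zero]

theorem Push_DD_tauS (u : Fin n) (z : St n) (c : Ch n) : Push_DD u (tauS z) c = Push_DD u z c := by
  rw [Push_DD, Push_DD, tauS_tauS, add_comm]

theorem Push_r_tauS (u : Fin n) (z : St n) (c : Ch n) : Push_r u (tauS z) c = Push_r u z c := by
  rw [Push_r, Push_r, Push_DD_tauS, Push_DD_tauS]

theorem Push_D_tau (u : Fin n) (z : St n) (c : Ch n) :
    Push_D u z (tau c) = tau (Push_D u (tauS z) c) := by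
  funext W
  simp only [Push_D, tau]
  have h1 : (tauC W u = none ∧ Ext (tauC W) (tauS z)) ↔ (W u = none ∧ Ext W z) := by
    rw [ext_tauC, tauS_tauS]
    have : tauC W u = none ↔ W u = none := by
      simp only [tauC, Option.map_eq_none_iff]
    rw [this]
  have h2 : tauC (Function.update W u (some (z u))) = Function.update (tauC W) u (some (tauS z u)) := by
    funext v
    by_cases hv : v = u
    · subst hv
      simp only [tauC, tauS, Function.update_self, Option.map_some]
    · simp only [tauC, Function.update_of_ne hv]
  by_cases h : W u = none ∧ Ext W z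
  · rw [if_pos h, if_pos (h1.2 h), h2]
  · rw [if_neg h, if_neg (fun h' => h (h1.1 h'))]

theorem Push_DD_tau (u : Fin n) (z : St n) (c : Ch n) :
    Push_DD u z (tau c) = tau (Push_DD u z c) := by
  rw [Push_DD, Push_D_tau, Push_D_tau, tauS_tauS, ← tau_add, add_comm, Push_DD]

theorem Push_r_add (u : Fin n) (z : St n) (c d : Ch n) :
    Push_r u z (c + d) = Push_r u z c + Push_r u z d := by
  rw [Push_r, Push_r, Push_r, Push_DD_add, bd_add, bd_add, Push_DD_add]
  abel

theorem Push_r_tau (u : Fin n) (z : St n) (c : Ch n) :
    Push_r u z (tau c) = tau (Push_r u z c) := by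
  rw [Push_r, Push_DD_tau, bd_tau, bd_tau, Push_DD_tau, ← tau_add, ← tau_add, Push_r]

theorem Push_bd_r (u : Fin n) (z : St n) (c : Ch n) :
    bd (Push_r u z c) = Push_r u z (bd c) := by
  rw [Push_r, Push_r, bd_add, bd_add, bd_bd, bd_bd, Push_DD_zero, add_zero, add_zero]

theorem Push_D_ne {u : Fin n} {z : St n} {c : Ch n} {W : Cell n} (h : Push_D u z c W ≠ 0) :
    W u = none ∧ Ext W z ∧ c (Function.update W u (some (z u))) ≠ 0 := by
  simp only [Push_D] at h
  by_cases h1 : W u = none ∧ Ext W z
  · rw [if_pos h1] at h
    exact ⟨h1.1, h1.2, h⟩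
  · rw [if_neg h1] at h
    exact absurd rfl h

theorem Push_DD_ne {u : Fin n} {z : St n} {c : Ch n} {W : Cell n} (h : Push_DD u z c W ≠ 0) :
    Push_D u z c W ≠ 0 ∨ Push_D u (tauS z) c W ≠ 0 := by
  by_contra h'
  push Not at h'
  apply h
  simp only [Push_DD, Pi.add_apply, h'.1, h'.2, add_zero]

theorem Push_bd_ne {c : Ch n} {f : Cell n} (h : bd c f ≠ 0) :
    ∃ v, f v ≠ none ∧ c (free f v) ≠ 0 := by
  obtain ⟨v, -, hv⟩ := Finset.exists_ne_zero_of_sum_ne_zero h
  by_cases h1 : f v = none
  · rw [if_pos h1] at hv
    exact absurd rfl hv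
  · rw [if_neg h1] at hv
    exact ⟨v, h1, hv⟩

theorem Push_dm_update {W : Cell n} {u : Fin n} (h : W u = none) (b : Bool) :
    dm W = dm (Function.update W u (some b)) + 1 := by
  have h1 := dm_free (Function.update W u (some b)) u (by rw [Function.update_self]; exact Option.some_ne_none b)
  have h2 : free (Function.update W u (some b)) u = W := by
    rw [free, Function.update_idem, ← h, Function.update_eq_self]
  rw [h2] at h1
  exact h1

theorem Push_DD_dm {u : Fin n} {z : St n} {c : Ch n} {W : Cell n} {i : ℕ}
    (hc : ∀ f, c f ≠ 0 → dm f = i) (h : Push_DD u z c W ≠ 0) : dm W = i + 1 := by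
  rcases Push_DD_ne h with h1 | h1
  · obtain ⟨h2, -, h3⟩ := Push_D_ne h1
    rw [Push_dm_update h2 (z u), hc _ h3]
  · obtain ⟨h2, -, h3⟩ := Push_D_ne h1
    rw [Push_dm_update h2 (tauS z u), hc _ h3]

theorem Push_bd_dm {c : Ch n} {f : Cell n} {i : ℕ}
    (hc : ∀ f, c f ≠ 0 → dm f = i) (h : bd c f ≠ 0) : dm f + 1 = i := by
  obtain ⟨v, h1, h2⟩ := Push_bd_ne h
  rw [← dm_free f v h1]
  exact hc _ h2

theorem Push_r_dm {u : Fin n} {z : St n} {c : Ch n} {f : Cell n} {i : ℕ}
    (hc : ∀ f, c f ≠ 0 → dm f = i) (h : Push_r u z c f ≠ 0) : dm f = i := by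
  by_cases h1 : c f = 0
  · by_cases h2 : bd (Push_DD u z c) f = 0
    · have h3 : Push_DD u z (bd c) f ≠ 0 := by
        intro h3
        apply h
        simp only [Push_r, Pi.add_apply, h1, h2, h3, add_zero]
      rcases Nat.eq_zero_or_pos i with hi | hi
      · exfalso
        have h4 : bd c = 0 := by
          funext g
          by_contra h5
          have h6 := Push_bd_dm hc h5
          omega
        rw [h4, Push_DD_zero] at h3
        exact h3 rfl
      · have h4 : ∀ g, bd c g ≠ 0 → dm g = i - 1 := by
          intro g hg
          have := Push_bd_dm hc hg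
          omega
        have h5 := Push_DD_dm h4 h3
        omega
    · have h4 := Push_bd_dm (i := i + 1) (fun g hg => Push_DD_dm hc hg) h2
      omega
  · exact hc f h1

theorem Push_not_both {W : Cell n} {z : St n} (hW : dm W < n) (h : Ext W z) : ¬ Ext W (tauS z) := by
  intro h'
  have h1 := dist_le_dm W z (tauS z) h h'
  have h2 : dist z (tauS z) = n := by
    have h3 : (univ.filter (fun v : Fin n => z v ≠ tauS z v)) = univ := by
      apply Finset.filter_true_of_mem
      intro v _
      simp only [tauS]
      cases z v <;> decide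
    rw [dist, h3, Finset.card_univ, Fintype.card_fin]
  omega

theorem Push_zmod (a : ZMod 2) : a + a = 0 := CharTwo.add_self_eq_zero a

/-- the new chain does not meet `z` -/
theorem Push_r_zero {u : Fin n} {z : St n} {c : Ch n} {f : Cell n} (hf : dm f + 1 < n)
    (hz : Ext f z) : Push_r u z c f = 0 := by
  have hn : ¬ Ext f (tauS z) := Push_not_both (by omega) hz
  have hfree : ∀ v, f v ≠ none → Push_DD u z c (free f v)
      = if (free f v) u = none then c (Function.update (free f v) u (some (z u))) else 0 := by
    intro v hv
    have h1 : Ext (free f v) z := ext_free f v z hz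
    have h2 : ¬ Ext (free f v) (tauS z) := Push_not_both (by rw [dm_free f v hv]; exact hf) h1
    simp only [Push_DD, Pi.add_apply, Push_D, h1, h2, and_true, and_false, if_false, add_zero]
  have hb : bd (Push_DD u z c) f = ∑ v, if f v = none then 0 else
      (if (free f v) u = none then c (Function.update (free f v) u (some (z u))) else 0) := by
    simp only [bd]
    apply Finset.sum_congr rfl
    intro v _
    by_cases hv : f v = none
    · rw [if_pos hv, if_pos hv]
    · rw [if_neg hv, if_neg hv, hfree v hv]
  have hd : Push_DD u z (bd c) f = if f u = none then bd c (Function.update f u (some (z u))) else 0 := by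
    simp only [Push_DD, Pi.add_apply, Push_D, hz, hn, and_true, and_false, if_false, add_zero]
  have hr : Push_r u z c f = c f + bd (Push_DD u z c) f + Push_DD u z (bd c) f := rfl
  rw [hr, hb, hd]
  by_cases hu : f u = none
  · rw [if_pos hu]
    have e1 : bd c (Function.update f u (some (z u))) = c f + ∑ v ∈ univ.erase u,
        (if f v = none then 0 else c (Function.update (free f v) u (some (z u)))) := by
      simp only [bd]
      rw [← Finset.add_sum_erase univ _ (Finset.mem_univ u)]
      congr 1
      · rw [Function.update_self, if_neg (Option.some_ne_none _), free, Function.update_idem, ← hu,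
          Function.update_eq_self]
      · apply Finset.sum_congr rfl
        intro v hv
        have hvu : v ≠ u := Finset.ne_of_mem_erase hv
        rw [Function.update_of_ne hvu]
        by_cases h : f v = none
        · rw [if_pos h, if_pos h]
        · rw [if_neg h, if_neg h, free, free, Function.update_comm hvu.symm]
    have e2 : (∑ v, if f v = none then (0 : ZMod 2) else
        (if (free f v) u = none then c (Function.update (free f v) u (some (z u))) else 0))
        = ∑ v ∈ univ.erase u,
        (if f v = none then 0 else c (Function.update (free f v) u (some (z u)))) := by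
      rw [← Finset.add_sum_erase univ _ (Finset.mem_univ u), if_pos hu, zero_add]
      apply Finset.sum_congr rfl
      intro v hv
      have hvu : v ≠ u := Finset.ne_of_mem_erase hv
      by_cases h : f v = none
      · rw [if_pos h, if_pos h]
      · rw [if_neg h, if_neg h, if_pos]
        rw [free, Function.update_of_ne hvu.symm]
        exact hu
    rw [e1, e2]
    have e3 : ∀ a b : ZMod 2, a + b + (a + b) = 0 := fun a b => Push_zmod (a + b)
    exact e3 _ _
  · rw [if_neg hu, add_zero]
    have e2 : (∑ v, if f v = none then (0 : ZMod 2) else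
        (if (free f v) u = none then c (Function.update (free f v) u (some (z u))) else 0)) = c f := by
      rw [Finset.sum_eq_single u]
      · rw [if_neg hu, if_pos (by rw [free, Function.update_self])]
        congr 1
        rw [free, Function.update_idem]
        obtain ⟨b, hb⟩ := Option.ne_none_iff_exists'.1 hu
        have h1 := hz u b hb
        rw [h1, ← hb, Function.update_eq_self]
      · intro v _ hvu
        by_cases h : f v = none
        · rw [if_pos h]
        · rw [if_neg h, if_neg]
          rw [free, Function.update_of_ne hvu.symm]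
          exact hu
      · intro h
        exact absurd (Finset.mem_univ u) h
    rw [e2]
    exact Push_zmod _

/-- cells of the new chain coming from the cone at `z` -/
theorem Push_cone {S T : Finset (St n)} {u : Fin n} {z : St n} {c : Ch n} {f : Cell n} {i j : ℕ}
    (hc : Supp T i c) (hij : i ≤ j) (hST : ∀ x ∈ T, x = z ∨ x = tauS z ∨ x ∈ S)
    (hcone : ∀ y, dist y z ≤ j → y u = z u → y ∈ T → flip u y ∈ S)
    (hz : ¬ Ext f z) (hz' : ¬ Ext f (tauS z)) {v : Fin n}
    (h : Push_D u z c (free f v) ≠ 0) {x : St n} (hx : Ext f x) : x ∈ S := by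
  obtain ⟨h1, h2, h3⟩ := Push_D_ne h
  obtain ⟨h4, h5⟩ := hc _ h3
  have hzW : Ext (Function.update (free f v) u (some (z u))) z := by
    intro w b hw
    by_cases hwu : w = u
    · subst hwu
      rw [Function.update_self] at hw
      exact Option.some.inj hw
    · rw [Function.update_of_ne hwu] at hw
      exact h2 w b hw
  have hyW : Ext (Function.update (free f v) u (some (z u))) (Function.update x u (z u)) := by
    intro w b hw
    by_cases hwu : w = u
    · subst hwu
      rw [Function.update_self] at hw
      rw [Function.update_self]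
      exact Option.some.inj hw
    · rw [Function.update_of_ne hwu] at hw
      rw [Function.update_of_ne hwu]
      exact ext_free f v x hx w b hw
  have hyT := h5 _ hyW
  by_cases hxu : x u = z u
  · rw [← hxu, Function.update_eq_self] at hyT
    rcases hST x hyT with h6 | h6 | h6
    · exact absurd (h6 ▸ hx) hz
    · exact absurd (h6 ▸ hx) hz'
    · exact h6
  · have h6 := hcone _ ((dist_le_dm _ _ _ hyW hzW).trans (h4 ▸ hij)) (by rw [Function.update_self]) hyT
    have h7 : flip u (Function.update x u (z u)) = x := by
      rw [flip, Function.update_self, Function.update_idem]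
      have h8 : (!(z u)) = x u := by
        revert hxu
        cases z u <;> cases x u <;> decide
      rw [h8, Function.update_eq_self]
    rw [h7] at h6
    exact h6

theorem Push_dist_tauS (x y : St n) : dist (tauS x) y = dist x (tauS y) := by
  rw [dist, dist]
  congr 1
  apply Finset.filter_congr
  intro v _
  simp only [tauS]
  cases x v <;> cases y v <;> decide

theorem Push_flip_tauS (u : Fin n) (x : St n) : tauS (flip u (tauS x)) = flip u x := by
  funext v
  by_cases hv : v = u
  · subst hv
    simp only [tauS, flip, Function.update_self, Bool.not_not]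
  · simp only [tauS, flip, Function.update_of_ne hv, Bool.not_not]

/-- if every vertex near `z` can be pushed into `S` by flipping `u`, then `z` and its antipode do not
carry the index -/
theorem push {n : ℕ} (S : Finset (St n)) (hS : Sym S) (z : St n) (hz : z ∉ S) (j : ℕ)
    (hj : j + 1 < n) (u : Fin n) (h : Ind (insert z (insert (tauS z) S)) j)
    (hcone : ∀ y, dist y z ≤ j → y u = z u → y ∈ insert z (insert (tauS z) S) → flip u y ∈ S) :
    Ind S j := by
  obtain ⟨c, hc, hc0, hcb⟩ := h
  have hT : ∀ x ∈ insert z (insert (tauS z) S), x = z ∨ x = tauS z ∨ x ∈ S := by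
    intro x hx
    rw [Finset.mem_insert, Finset.mem_insert] at hx
    exact hx
  have hTs : ∀ x ∈ insert z (insert (tauS z) S), tauS x ∈ insert z (insert (tauS z) S) := by
    intro x hx
    rw [Finset.mem_insert, Finset.mem_insert]
    rcases hT x hx with h | h | h
    · rw [h]
      exact Or.inr (Or.inl rfl)
    · rw [h, tauS_tauS]
      exact Or.inl rfl
    · exact Or.inr (Or.inr (hS x h))
  have hcone' : ∀ y, dist y (tauS z) ≤ j → y u = tauS z u → y ∈ insert z (insert (tauS z) S) →
      flip u y ∈ S := by
    intro y h1 h2 h3
    have h4 := hcone (tauS y) (by rw [Push_dist_tauS]; exact h1)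
      (by
        have h5 : tauS y u = !(y u) := rfl
        rw [h5, h2]
        have h6 : tauS z u = !(z u) := rfl
        rw [h6, Bool.not_not]) (hTs y h3)
    have h5 := hS _ h4
    rw [Push_flip_tauS] at h5
    exact h5
  refine ⟨fun i => Push_r u z (c i), ?_, ?_, ?_⟩
  · intro i hi f hf
    have hdm : dm f = i := Push_r_dm (fun g hg => (hc i hi g hg).1) hf
    refine ⟨hdm, fun x hx => ?_⟩
    have hz1 : ¬ Ext f z := by
      intro h1
      exact hf (Push_r_zero (by omega) h1)
    have hz2 : ¬ Ext f (tauS z) := by
      intro h1
      have h2 := Push_r_zero (u := u) (c := c i) (by omega) h1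
      rw [Push_r_tauS] at h2
      exact hf h2
    by_cases hcf : c i f = 0
    · have h0 : Push_DD u z (bd (c i)) f = 0 := by
        by_contra h1
        rcases Push_DD_ne h1 with h2 | h2
        · exact hz1 (Push_D_ne h2).2.1
        · exact hz2 (Push_D_ne h2).2.1
      have h1 : bd (Push_DD u z (c i)) f ≠ 0 := by
        intro h2
        apply hf
        simp only [Push_r, Pi.add_apply, hcf, h2, h0, add_zero]
      obtain ⟨v, -, hv⟩ := Push_bd_ne h1
      rcases Push_DD_ne hv with h2 | h2
      · exact Push_cone (hc i hi) hi hT hcone hz1 hz2 h2 hx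
      · refine Push_cone (z := tauS z) (hc i hi) hi ?_ hcone' hz2 ?_ h2 hx
        · intro y hy
          rw [tauS_tauS]
          rcases hT y hy with h | h | h
          · exact Or.inr (Or.inl h)
          · exact Or.inl h
          · exact Or.inr (Or.inr h)
        · rw [tauS_tauS]
          exact hz1
    · have h1 := (hc i hi f hcf).2 x hx
      rcases hT x h1 with h2 | h2 | h2
      · exact absurd (h2 ▸ hx) hz1
      · exact absurd (h2 ▸ hx) hz2
      · exact h2
  · have hb0 : bd (c 0) = 0 := by
      funext g
      by_contra h1
      have h2 := Push_bd_dm (fun g hg => (hc 0 (Nat.zero_le j) g hg).1) h1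
      omega
    have h1 : Push_r u z (c 0) = c 0 + bd (Push_DD u z (c 0)) := by
      rw [Push_r, hb0, Push_DD_zero, add_zero]
    simp only [h1, Pi.add_apply, Finset.sum_add_distrib, sum_bd, add_zero]
    exact hc0
  · intro i hi
    simp only
    rw [Push_bd_r, hcb i hi, Push_r_add, Push_r_tau]

end Pool.Agent.helper79.NB
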