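import Pool.Agent.helper79.NB.Graph
import Pool.Agent.helper71.Bis.B1

set_option autoImplicit false

namespace Pool.Agent.helper79.NB

/-!
Proof sketch of `quant`.  `V` empty: `A = ∅`.  `V` nonempty: `Pool.Agent.helper71.Bis.edge_minimal`
for `R = G.Adj`, `m = d` gives `S ⊆ G.Adj` with minimum degree `≥ d` such that each edge has an
endpoint of degree exactly `d`.  Transport to `Fin n`, `n = Fintype.card V` along
`Fintype.equivFin V`, apply `graph_near` (classical decidability), `A = {v | z (e v) = true}`;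
`∑_A w - ∑_{Aᶜ} w = ∑ v, w v * (if z (e v) = true then 1 else -1)`.
The neighbours counted in `S` are among those counted in `G`.
* `n ≥ d + 1 ≥ a`: `d + 2 ≥ 2 a + b ≥ 2 a + 1` gives `n ≥ d + 1 ≥ 2 a`, so `a < n`.
* `r = 0` (no weights): use `graph_near` with one weight, `w = 1` (its bound is not needed);
  `a + r ≤ n + 1`: use `graph_near` directly;
  `a + r > n + 1`: then `a - 1 + 2 r ≥ n ≥ |∑ ...|`, so again use one weight for the existence only.
-/

open Finset Pool.Agent.helper2.Bis in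
/-- one side, at least one weight, enough vertices -/
theorem quant_core (k a b d r : ℕ) (V : Type) [Fintype V] [DecidableEq V] (G : SimpleGraph V)
    [DecidableRel G.Adj] (w : Fin r → V → ℝ) (ha : 1 ≤ a) (hb : 1 ≤ b)
    (hd : 2 * k + 2 * a + b ≤ d + 2) (hdeg : ∀ v, d ≤ G.degree v) (hw : ∀ i v, |w i v| ≤ 1)
    (hr : 1 ≤ r) (hne : Nonempty V) (harn : a + r ≤ Fintype.card V + 1) (ep : Bool) :
    ∃ A : Finset V,
      (∀ i, |∑ v ∈ A, w i v - ∑ v ∈ Aᶜ, w i v| ≤
        2 * r * d * (Fintype.card V : ℝ) / (a * b) + (a - 1 + 2 * r)) ∧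
      ∀ v : V, k ≤ ((G.neighborFinset v).filter
        (fun w => ((w ∈ A ↔ v ∈ A) ↔ ep = true))).card := by
  classical
  have hnb : ∀ v, dg G.Adj v = G.degree v := by
    intro v
    unfold dg
    rw [← SimpleGraph.card_neighborFinset_eq_degree]
    congr 1
    ext x
    rw [mem_nb, SimpleGraph.mem_neighborFinset]
  obtain ⟨S, hS1, hS2, hS3, hS4⟩ := Pool.Agent.helper71.Bis.edge_minimal (V := V) G.Adj
    (fun u v h => h.symm) d (fun v => by rw [hnb v]; exact hdeg v)
  set e : V ≃ Fin (Fintype.card V) := Fintype.equivFin V with he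
  have hcard : ∀ i : Fin (Fintype.card V),
      (univ.filter (fun j => S (e.symm i) (e.symm j))).card = dg S (e.symm i) := by
    intro i
    unfold dg
    refine Finset.card_bij (fun j _ => e.symm j) ?_ ?_ ?_
    · intro j hj
      exact mem_nb.2 (Finset.mem_filter.1 hj).2
    · intro j _ j' _ h
      exact e.symm.injective h
    · intro x hx
      refine ⟨e x, Finset.mem_filter.2 ⟨Finset.mem_univ _, ?_⟩, e.symm_apply_apply x⟩
      rw [e.symm_apply_apply]
      exact mem_nb.1 hx
  have hn : d + 1 ≤ Fintype.card V := by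
    obtain ⟨v⟩ := hne
    have h1 := G.degree_lt_card_verts v
    have h2 := hdeg v
    omega
  obtain ⟨z, hz1, hz2⟩ := graph_near (n := Fintype.card V) (r := r)
    (fun i j => S (e.symm i) (e.symm j)) (fun i j h => hS1 _ _ h)
    (fun i h => G.irrefl (hS2 _ _ h)) (fun i j => w i (e.symm j)) (fun i j => hw i _) hr k a b d
    ha hb (by omega) harn hd (fun i => by rw [hcard i]; exact hS3 _)
    (fun i j h => by rw [hcard i, hcard j]; exact hS4 _ _ h) ep
  refine ⟨univ.filter (fun v => z (e v) = true), ?_, ?_⟩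
  · intro i
    have h1 : ∑ v ∈ univ.filter (fun v => z (e v) = true), w i v -
        ∑ v ∈ (univ.filter (fun v => z (e v) = true))ᶜ, w i v =
        ∑ j, w i (e.symm j) * (if z j = true then 1 else -1) := by
      rw [Finset.compl_filter, Finset.sum_filter, Finset.sum_filter, ← Finset.sum_sub_distrib]
      rw [← Equiv.sum_comp e (fun j => w i (e.symm j) * (if z j = true then (1 : ℝ) else -1))]
      refine Finset.sum_congr rfl fun v _ => ?_
      rw [e.symm_apply_apply]
      by_cases h : z (e v) = true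
      · rw [if_pos h, if_neg (not_not.2 h), if_pos h]
        ring
      · rw [if_neg h, if_pos h, if_neg h]
        ring
    rw [h1]
    exact hz1 i
  · intro v
    refine (hz2 (e v)).trans ?_
    refine Finset.card_le_card_of_injOn (fun j => e.symm j) ?_ ?_
    · intro j hj
      have hj' := (Finset.mem_filter.1 (Finset.mem_coe.1 hj)).2
      refine Finset.mem_coe.2 (Finset.mem_filter.2 ⟨?_, ?_⟩)
      · rw [SimpleGraph.mem_neighborFinset]
        have h2 := hS2 _ _ hj'.1
        rw [e.symm_apply_apply] at h2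
        exact h2
      · rw [← hj'.2, Finset.mem_filter, Finset.mem_filter, e.apply_symm_apply]
        cases h3 : z j <;> cases h4 : z (e v) <;> simp
    · intro j _ j' _ h
      exact e.symm.injective h

open Finset in
theorem quant_abs {V : Type} [Fintype V] [DecidableEq V] (w : V → ℝ) (hw : ∀ v, |w v| ≤ 1)
    (A : Finset V) : |∑ v ∈ A, w v - ∑ v ∈ Aᶜ, w v| ≤ (Fintype.card V : ℝ) := by
  have h1 : |∑ v ∈ A, w v| ≤ (A.card : ℝ) := by
    refine (Finset.abs_sum_le_sum_abs _ _).trans ?_
    refine (Finset.sum_le_sum fun v _ => hw v).trans ?_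
    simp
  have h2 : |∑ v ∈ Aᶜ, w v| ≤ ((Aᶜ).card : ℝ) := by
    refine (Finset.abs_sum_le_sum_abs _ _).trans ?_
    refine (Finset.sum_le_sum fun v _ => hw v).trans ?_
    simp
  have h3 : (A.card : ℝ) + ((Aᶜ).card : ℝ) = (Fintype.card V : ℝ) := by
    exact_mod_cast Finset.card_add_card_compl A
  refine (abs_sub _ _).trans ?_
  linarith

open Finset in
theorem quant_side (k a b d r : ℕ) (V : Type) [Fintype V] [DecidableEq V] (G : SimpleGraph V)
    [DecidableRel G.Adj] (w : Fin r → V → ℝ) (ha : 1 ≤ a) (hb : 1 ≤ b)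
    (hd : 2 * k + 2 * a + b ≤ d + 2) (hdeg : ∀ v, d ≤ G.degree v) (hw : ∀ i v, |w i v| ≤ 1)
    (ep : Bool) :
    ∃ A : Finset V,
      (∀ i, |∑ v ∈ A, w i v - ∑ v ∈ Aᶜ, w i v| ≤
        2 * r * d * (Fintype.card V : ℝ) / (a * b) + (a - 1 + 2 * r)) ∧
      ∀ v : V, k ≤ ((G.neighborFinset v).filter
        (fun w => ((w ∈ A ↔ v ∈ A) ↔ ep = true))).card := by
  have ha' : (1 : ℝ) ≤ a := by exact_mod_cast ha
  have hb' : (1 : ℝ) ≤ b := by exact_mod_cast hb
  have hpos : (0 : ℝ) ≤ 2 * r * d * (Fintype.card V : ℝ) / (a * b) := by positivity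
  rcases isEmpty_or_nonempty V with hV | hV
  · refine ⟨∅, ?_, fun v => hV.elim v⟩
    intro i
    have h1 := quant_abs (w i) (hw i) ∅
    have h2 : (Fintype.card V : ℝ) = 0 := by
      rw [Fintype.card_eq_zero]
      norm_num
    rw [h2] at h1
    refine h1.trans ?_
    have h3 : (0 : ℝ) ≤ a - 1 + 2 * r := by
      have : (0 : ℝ) ≤ r := Nat.cast_nonneg r
      linarith
    linarith
  · have hn : d + 1 ≤ Fintype.card V := by
      obtain ⟨v⟩ := hV
      have h1 := G.degree_lt_card_verts v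
      have h2 := hdeg v
      omega
    by_cases hcase : 1 ≤ r ∧ a + r ≤ Fintype.card V + 1
    · exact quant_core k a b d r V G w ha hb hd hdeg hw hcase.1 hV hcase.2 ep
    · obtain ⟨A, -, hA⟩ := quant_core k a b d 1 V G (fun _ _ => 1) ha hb hd hdeg
        (fun _ _ => by simp) le_rfl hV (by omega) ep
      refine ⟨A, ?_, hA⟩
      intro i
      have hr : 1 ≤ r := by
        have := i.2
        omega
      have h4 : Fintype.card V + 1 < a + r := by
        by_contra h5
        exact hcase ⟨hr, not_lt.1 h5⟩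
      refine (quant_abs (w i) (hw i) A).trans ?_
      have h6 : (Fintype.card V : ℝ) + 1 ≤ a + r := by exact_mod_cast h4.le
      have h7 : (0 : ℝ) ≤ r := Nat.cast_nonneg r
      linarith

open Finset in
/-- near-balanced degree-constrained partitions, several weight functions at once -/
theorem quant (k a b d r : ℕ) (V : Type) [Fintype V] [DecidableEq V] (G : SimpleGraph V)
    [DecidableRel G.Adj] (w : Fin r → V → ℝ) (ha : 1 ≤ a) (hb : 1 ≤ b)
    (hd : 2 * k + 2 * a + b ≤ d + 2) (hdeg : ∀ v, d ≤ G.degree v) (hw : ∀ i v, |w i v| ≤ 1) :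
    (∃ A : Finset V,
      (∀ i, |∑ v ∈ A, w i v - ∑ v ∈ Aᶜ, w i v| ≤
        2 * r * d * (Fintype.card V : ℝ) / (a * b) + (a - 1 + 2 * r)) ∧
      ∀ v : V, k ≤ ((G.neighborFinset v).filter (fun w => (w ∈ A ↔ v ∈ A))).card) ∧
    (∃ A : Finset V,
      (∀ i, |∑ v ∈ A, w i v - ∑ v ∈ Aᶜ, w i v| ≤
        2 * r * d * (Fintype.card V : ℝ) / (a * b) + (a - 1 + 2 * r)) ∧
      ∀ v : V, k ≤ ((G.neighborFinset v).filter (fun w => (w ∈ A ↔ v ∉ A))).card) := by
  obtain ⟨A, hA1, hA2⟩ := quant_side k a b d r V G w ha hb hd hdeg hw true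
  obtain ⟨B, hB1, hB2⟩ := quant_side k a b d r V G w ha hb hd hdeg hw false
  refine ⟨⟨A, hA1, fun v => ?_⟩, ⟨B, hB1, fun v => ?_⟩⟩
  · refine (hA2 v).trans (le_of_eq ?_)
    congr 1
    refine Finset.filter_congr fun x _ => ?_
    simp
  · refine (hB2 v).trans (le_of_eq ?_)
    congr 1
    refine Finset.filter_congr fun x _ => ?_
    by_cases h1 : x ∈ B <;> by_cases h2 : v ∈ B <;> simp [h1, h2]

end Pool.Agent.helper79.NB
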